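import Pool.Agent.Work.MP_0d53be_an.Full.E.Drop

/-!
# H/Acc: the accounting

`Λ = Nat.sqrt k`, `T : ℕ` with `T Λ ≤ 2 k`. Suppose `hh p (T Λ) ≤ 4`,
`hh p 0 ≥ (k/2) log 2 - K log k`, `drop A p 0 (T Λ) ≤ K log k`, `k/2 + K ≤ T Λ`, and for `i < T`
(A) if `1 ≤ i`, `2 (i+1) Λ ≤ k` and `drop A p (iΛ) ((i+1)Λ) ≤ k^(-1/5)` then
`hh p (iΛ) - hh p ((i+1)Λ) ≤ Λ log 2 + Λ k^(-1/170)`,
(B) if `k/2 + K ≤ i Λ` and `drop A p (iΛ) ((i+1)Λ) ≤ k^(-1/5)` then
`hh p (iΛ) - hh p ((i+1)Λ) ≤ Λ k^(-1/170)`.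
Then for `a + ℓ ≤ k/2`: `hh p a - hh p (a + ℓ) ≥ ℓ log 2 - k^(1-1/180)`, for all `k ≥ k₀(K)`.

Proof. Write `δ_i = hh p (iΛ) - hh p ((i+1)Λ) ∈ [0, 2 Λ log 2]` (`hh_diff_nonneg`, `hh_diff_le`), `hh`
is nonincreasing. Call `i < T` bad if `drop A p (iΛ) ((i+1)Λ) > k^(-1/5)`. The drops are
nonnegative (`drop_nonneg`) and add up (`drop_add`) to `drop A p 0 (TΛ) ≤ K log k`, so there are at
most `K k^(1/5) log k` bad `i`. Let `x = Λ k^(-1/170)`.
(1) `hh p 0 - hh p a ≤ a log 2 + E₁`: let `i_a = a / Λ` (floor; `i_a Λ ≤ a < (i_a + 1) Λ`).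
`hh p 0 - hh p a = ∑_{i < i_a} δ_i + (hh p (i_a Λ) - hh p a)`, the last term is `≤ 2 Λ log 2`. For
`i < i_a`: `(i+1) Λ ≤ a ≤ k/2`, so `δ_i ≤ Λ log 2 + x` unless `i = 0` or `i` is bad, when
`δ_i ≤ 2 Λ log 2`. The sum is at most `i_a (Λ log 2 + x) + 2 Λ (1 + #bad)`.
(2) `hh p (a+ℓ) - hh p (TΛ) ≤ (k/2 - a - ℓ) log 2 + E₂`: let `i₁ = (a + ℓ)/Λ + 1`
(so `a + ℓ < i₁ Λ ≤ a + ℓ + Λ`), `hh p (a+ℓ) - hh p (i₁ Λ) ≤ 2 Λ log 2` (or, if `i₁ > T`, the whole
difference is `≤ 2 Λ log 2`), and `hh p (i₁ Λ) - hh p (TΛ) = ∑_{i₁ ≤ i < T} δ_i`. The `i` with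
`2 (i+1) Λ ≤ k`, not bad: `δ_i ≤ Λ log 2 + x`; there are at most `(k/2 - a - ℓ)/Λ` of these. The
`i` with `iΛ ≥ k/2 + K`, not bad: `δ_i ≤ x`; at most `T` of these. The other not bad `i`
(`(i+1) Λ > k/2` and `i Λ < k/2 + K`): at most `K/Λ + 2` of these, `δ_i ≤ 2 Λ log 2`. Bad `i`:
`δ_i ≤ 2 Λ log 2`.
(3) `T x ≤ 2 k k^(-1/170)`, `Λ #bad ≤ k^(1/2) K k^(1/5) log k`, `Λ (K/Λ + 2) ≤ K + 2 k^(1/2)`. Hence
`hh p a - hh p (a+ℓ) = hh p 0 - (hh p 0 - hh p a) - (hh p (a+ℓ) - hh p (TΛ)) - hh p (TΛ)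
≥ (k/2) log 2 - K log k - a log 2 - (k/2 - a - ℓ) log 2 - E₁ - E₂ - 4
≥ ℓ log 2 - k^(1 - 1/180)` for large `k`.
-/

set_option autoImplicit false

namespace Pool.Agent.Work.MP_0d53be_an.Full

open scoped Pointwise

private theorem mid_card (k Λ : ℕ) (hΛ : 0 < Λ) (K : ℝ) (hK : 0 ≤ K) (T : ℕ) :
    (((Finset.range T).filter (fun i : ℕ => k < 2 * ((i + 1) * Λ) ∧
      (i : ℝ) * Λ < k / 2 + K)).card : ℝ) ≤ K / Λ + 2 := by
  have hΛ' : (0 : ℝ) < Λ := by exact_mod_cast hΛ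
  obtain ⟨m, hm⟩ : ∃ m, m = k / (2 * Λ) := ⟨_, rfl⟩
  have hsub : (Finset.range T).filter (fun i : ℕ => k < 2 * ((i + 1) * Λ) ∧
      (i : ℝ) * Λ < k / 2 + K) ⊆ Finset.Ico m (m + ⌈K / Λ + 1⌉₊) := by
    intro i hi
    rw [Finset.mem_filter] at hi
    obtain ⟨_, h1, h2⟩ := hi
    rw [Finset.mem_Ico]
    constructor
    · have : k / (2 * Λ) < i + 1 := by
        rw [Nat.div_lt_iff_lt_mul (by positivity)]
        calc k < 2 * ((i + 1) * Λ) := h1
          _ = (i + 1) * (2 * Λ) := by ring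
      omega
    · have h3 : (k : ℝ) < (m + 1) * (2 * Λ) := by
        have h := Nat.lt_mul_div_succ k (show 0 < 2 * Λ by positivity)
        rw [← hm] at h
        have h' : (k : ℝ) < ((2 * Λ * (m + 1) : ℕ) : ℝ) := by exact_mod_cast h
        push_cast at h'
        linarith
      have h4 : (i : ℝ) < m + (K / Λ + 1) := by
        have h5 : ((m : ℝ) + (K / Λ + 1)) * Λ = (m + 1) * Λ + K := by field_simp; ring
        have h6 : (i : ℝ) * Λ < (m + (K / Λ + 1)) * Λ := by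
          rw [h5]
          linarith
        exact lt_of_mul_lt_mul_right h6 hΛ'.le
      have h5 : (i : ℝ) < ((m + ⌈K / Λ + 1⌉₊ : ℕ) : ℝ) := by
        push_cast
        linarith [Nat.le_ceil (K / Λ + 1)]
      exact_mod_cast h5
  have h0 : (0 : ℝ) ≤ K / Λ + 1 := by positivity
  calc (((Finset.range T).filter (fun i : ℕ => k < 2 * ((i + 1) * Λ) ∧
      (i : ℝ) * Λ < k / 2 + K)).card : ℝ) ≤ ((Finset.Ico m (m + ⌈K / Λ + 1⌉₊)).card : ℝ) := by
        exact_mod_cast Finset.card_le_card hsub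
    _ = ⌈K / Λ + 1⌉₊ := by
        rw [Nat.card_Ico, Nat.add_sub_cancel_left]
    _ ≤ K / Λ + 2 := by
        have := Nat.ceil_lt_add_one h0
        linarith

private theorem abs_acc (H D : ℕ → ℝ) (k Λ T : ℕ) (K K0 x ε S : ℝ) (hΛ : 0 < Λ) (hK : 0 ≤ K)
    (hK0 : K0 ≤ K) (hx : 0 ≤ x) (hε : 0 < ε)
    (hH : ∀ s t, s ≤ t → 0 ≤ H s - H t)
    (hH2 : ∀ s t : ℕ, s ≤ t → H s - H t ≤ 2 * (t - s : ℕ) * Real.log 2)
    (hH0 : ∀ s, 0 ≤ H s) (hD : ∀ i, 0 ≤ D i) (hDs : ∑ i ∈ Finset.range T, D i ≤ S)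
    (htop : H (T * Λ) ≤ 4)
    (hA : ∀ i : ℕ, i < T → 1 ≤ i → 2 * ((i + 1) * Λ) ≤ k → D i ≤ ε →
      H (i * Λ) - H ((i + 1) * Λ) ≤ Λ * Real.log 2 + x)
    (hB : ∀ i : ℕ, i < T → (k : ℝ) / 2 + K0 ≤ i * Λ → D i ≤ ε →
      H (i * Λ) - H ((i + 1) * Λ) ≤ x)
    (a ℓ : ℕ) (hal : 2 * (a + ℓ) ≤ k) :
    H 0 - k / 2 * Real.log 2 + ℓ * Real.log 2 -
      (2 * T * x + 4 * Λ * (S / ε + K / Λ + 3) + 4 * Λ + 8) ≤ H a - H (a + ℓ) := by
  classical
  have hΛ' : (0 : ℝ) < Λ := by exact_mod_cast hΛ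
  have hl0 : 0 < Real.log 2 := Real.log_pos (by norm_num)
  have hl1 : Real.log 2 ≤ 1 := by have := Real.log_two_lt_d9; linarith
  set bad := (Finset.range T).filter (fun i => ε < D i) with hbad
  set mid := (Finset.range T).filter (fun i : ℕ => k < 2 * ((i + 1) * Λ) ∧
      (i : ℝ) * Λ < k / 2 + K) with hmid
  set F := (Finset.range T).filter (fun i => i = 0 ∨ ε < D i ∨ (k < 2 * ((i + 1) * Λ) ∧
      (i : ℝ) * Λ < k / 2 + K)) with hF
  have hbadc : (bad.card : ℝ) ≤ S / ε := by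
    rw [le_div_iff₀ hε]
    calc (bad.card : ℝ) * ε = ∑ i ∈ bad, ε := by rw [Finset.sum_const, nsmul_eq_mul]
      _ ≤ ∑ i ∈ bad, D i := Finset.sum_le_sum fun i hi => (Finset.mem_filter.1 hi).2.le
      _ ≤ ∑ i ∈ Finset.range T, D i :=
          Finset.sum_le_sum_of_subset_of_nonneg (Finset.filter_subset _ _) fun i _ _ => hD i
      _ ≤ S := hDs
  have hmidc : (mid.card : ℝ) ≤ K / Λ + 2 := mid_card k Λ hΛ K hK T
  have hFc : (F.card : ℝ) ≤ S / ε + K / Λ + 3 := by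
    have hsub : F ⊆ {0} ∪ (bad ∪ mid) := by
      intro i hi
      rw [hF, Finset.mem_filter] at hi
      rw [Finset.mem_union, Finset.mem_union, Finset.mem_singleton]
      rcases hi.2 with h | h | h
      · exact Or.inl h
      · exact Or.inr (Or.inl (Finset.mem_filter.2 ⟨hi.1, h⟩))
      · exact Or.inr (Or.inr (Finset.mem_filter.2 ⟨hi.1, h⟩))
    have h1 : F.card ≤ 1 + (bad.card + mid.card) := by
      calc F.card ≤ ({0} ∪ (bad ∪ mid)).card := Finset.card_le_card hsub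
        _ ≤ ({0} : Finset ℕ).card + (bad ∪ mid).card := Finset.card_union_le _ _
        _ ≤ 1 + (bad.card + mid.card) := by
            rw [Finset.card_singleton]
            exact Nat.add_le_add_left (Finset.card_union_le _ _) 1
    have h2 : (F.card : ℝ) ≤ 1 + (bad.card + mid.card) := by exact_mod_cast h1
    linarith
  have hstep : ∀ i : ℕ, H (i * Λ) - H ((i + 1) * Λ) ≤ 2 * Λ * Real.log 2 := by
    intro i
    have h1 := hH2 (i * Λ) ((i + 1) * Λ) (Nat.mul_le_mul_right Λ (Nat.le_succ i))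
    have h2 : (i + 1) * Λ - i * Λ = Λ := by
      rw [Nat.add_mul, one_mul, Nat.add_sub_cancel_left]
    rw [h2] at h1
    exact h1
  have hcard : ∀ i : ℕ, i < T → H (i * Λ) - H ((i + 1) * Λ) ≤
      (if 2 * ((i + 1) * Λ) ≤ k then Λ * Real.log 2 else 0) + x +
        2 * Λ * Real.log 2 * (if i ∈ F then 1 else 0) := by
    intro i hi
    have hnn : (0 : ℝ) ≤ if 2 * ((i + 1) * Λ) ≤ k then Λ * Real.log 2 else 0 := by
      split_ifs
      · positivity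
      · exact le_rfl
    by_cases hiF : i ∈ F
    · rw [if_pos hiF]
      have := hstep i
      linarith
    · rw [if_neg hiF, mul_zero, add_zero]
      have hn : ¬ (i = 0 ∨ ε < D i ∨ (k < 2 * ((i + 1) * Λ) ∧ (i : ℝ) * Λ < k / 2 + K)) := by
        intro h
        exact hiF (Finset.mem_filter.2 ⟨Finset.mem_range.2 hi, h⟩)
      push Not at hn
      obtain ⟨h1, h2, h3⟩ := hn
      by_cases hc : 2 * ((i + 1) * Λ) ≤ k
      · rw [if_pos hc]
        exact hA i hi (Nat.one_le_iff_ne_zero.2 h1) hc h2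
      · rw [if_neg hc, zero_add]
        have h4 := h3 (not_le.1 hc)
        exact hB i hi (by linarith) h2
  have hFsum : ∀ R : Finset ℕ, ∑ i ∈ R, (if i ∈ F then (1 : ℝ) else 0) ≤ F.card := by
    intro R
    rw [Finset.sum_ite_mem, Finset.sum_const, nsmul_eq_mul, mul_one]
    exact_mod_cast Finset.card_le_card Finset.inter_subset_right
  have hlamF : 2 * Λ * Real.log 2 * (F.card : ℝ) ≤ 2 * Λ * (S / ε + K / Λ + 3) := by
    have h1 : 2 * Λ * Real.log 2 * (F.card : ℝ) ≤ 2 * Λ * (F.card : ℝ) := by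
      have : (0 : ℝ) ≤ 2 * Λ * (F.card : ℝ) := by positivity
      nlinarith
    have h2 : 2 * Λ * (F.card : ℝ) ≤ 2 * Λ * (S / ε + K / Λ + 3) :=
      mul_le_mul_of_nonneg_left hFc (by positivity)
    linarith
  -- first part
  have part1 : ∀ J : ℕ, J ≤ T → H 0 - H (J * Λ) ≤ J * Λ * Real.log 2 + T * x +
      2 * Λ * (S / ε + K / Λ + 3) := by
    intro J hJ
    have h1 : H 0 - H (J * Λ) = ∑ i ∈ Finset.range J, (H (i * Λ) - H ((i + 1) * Λ)) := by
      rw [Finset.sum_range_sub' (fun i => H (i * Λ)), zero_mul]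
    rw [h1]
    calc ∑ i ∈ Finset.range J, (H (i * Λ) - H ((i + 1) * Λ))
        ≤ ∑ i ∈ Finset.range J, ((Λ * Real.log 2 + x) +
          2 * Λ * Real.log 2 * (if i ∈ F then 1 else 0)) := by
          refine Finset.sum_le_sum fun i hi => ?_
          have h2 := hcard i (lt_of_lt_of_le (Finset.mem_range.1 hi) hJ)
          have h3 : (if 2 * ((i + 1) * Λ) ≤ k then Λ * Real.log 2 else 0) ≤ Λ * Real.log 2 := by
            split_ifs
            · exact le_rfl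
            · positivity
          linarith
      _ = J * (Λ * Real.log 2 + x) +
          2 * Λ * Real.log 2 * ∑ i ∈ Finset.range J, (if i ∈ F then (1 : ℝ) else 0) := by
          rw [Finset.sum_add_distrib, Finset.sum_const, Finset.card_range, nsmul_eq_mul,
            ← Finset.mul_sum]
      _ ≤ J * Λ * Real.log 2 + T * x + 2 * Λ * (S / ε + K / Λ + 3) := by
          have h2 := mul_le_mul_of_nonneg_left (hFsum (Finset.range J))
            (show 0 ≤ 2 * Λ * Real.log 2 by positivity)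
          have h3 : (J : ℝ) * x ≤ T * x :=
            mul_le_mul_of_nonneg_right (by exact_mod_cast hJ) hx
          linarith
  have part2 : ∀ I : ℕ, I ≤ T → a + ℓ ≤ I * Λ → H (I * Λ) - H (T * Λ) ≤
      ((k : ℝ) / 2 - a - ℓ) * Real.log 2 + T * x + 2 * Λ * (S / ε + K / Λ + 3) := by
    intro I hI haI
    have h1 : H (I * Λ) - H (T * Λ) = ∑ i ∈ Finset.Ico I T, (H (i * Λ) - H ((i + 1) * Λ)) := by
      have h := Finset.sum_Ico_sub (f := fun i => H (i * Λ)) hI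
      have h' : ∑ i ∈ Finset.Ico I T, (H (i * Λ) - H ((i + 1) * Λ)) =
          - ∑ i ∈ Finset.Ico I T, (H ((i + 1) * Λ) - H (i * Λ)) := by
        rw [← Finset.sum_neg_distrib]
        exact Finset.sum_congr rfl fun i _ => by ring
      rw [h', h]
      ring
    have h4 : ∑ i ∈ Finset.Ico I T, (if 2 * ((i + 1) * Λ) ≤ k then Λ * Real.log 2 else 0) ≤
        ((k : ℝ) / 2 - a - ℓ) * Real.log 2 := by
      rw [← Finset.sum_filter, Finset.sum_const, nsmul_eq_mul]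
      have hsub : (Finset.Ico I T).filter (fun i => 2 * ((i + 1) * Λ) ≤ k) ⊆
          Finset.Ico I (k / (2 * Λ)) := by
        intro i hi
        rw [Finset.mem_filter, Finset.mem_Ico] at hi
        rw [Finset.mem_Ico]
        refine ⟨hi.1.1, ?_⟩
        have : i + 1 ≤ k / (2 * Λ) := by
          rw [Nat.le_div_iff_mul_le (by positivity)]
          calc (i + 1) * (2 * Λ) = 2 * ((i + 1) * Λ) := by ring
            _ ≤ k := hi.2
        omega
      have hc := Finset.card_le_card hsub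
      rw [Nat.card_Ico] at hc
      have hc' : (((Finset.Ico I T).filter (fun i => 2 * ((i + 1) * Λ) ≤ k)).card : ℝ) * Λ ≤
          (k : ℝ) / 2 - a - ℓ := by
        have hk : (a : ℝ) + ℓ ≤ k / 2 := by
          have : (2 * ((a : ℝ) + ℓ)) ≤ k := by exact_mod_cast hal
          linarith
        rcases le_total (k / (2 * Λ)) I with h | h
        · have h0 : ((Finset.Ico I T).filter (fun i => 2 * ((i + 1) * Λ) ≤ k)).card = 0 := by
            omega
          rw [h0]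
          push_cast
          linarith
        · have h5 : (((Finset.Ico I T).filter (fun i => 2 * ((i + 1) * Λ) ≤ k)).card : ℝ) ≤
              ((k / (2 * Λ) : ℕ) : ℝ) - I := by
            rw [← Nat.cast_sub h]
            exact_mod_cast hc
          have h6 : (((k / (2 * Λ) : ℕ) : ℝ)) * (2 * Λ) ≤ k := by
            have := Nat.div_mul_le_self k (2 * Λ)
            have h7 : ((k / (2 * Λ) * (2 * Λ) : ℕ) : ℝ) ≤ k := by exact_mod_cast this
            rw [Nat.cast_mul] at h7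
            rw [Nat.cast_mul 2 Λ] at h7
            exact h7
          have h7 : (a : ℝ) + ℓ ≤ I * Λ := by exact_mod_cast haI
          have h8 := mul_le_mul_of_nonneg_right h5 hΛ'.le
          linarith
      calc (((Finset.Ico I T).filter (fun i => 2 * ((i + 1) * Λ) ≤ k)).card : ℝ) *
            (Λ * Real.log 2)
          = (((Finset.Ico I T).filter (fun i => 2 * ((i + 1) * Λ) ≤ k)).card : ℝ) * Λ *
            Real.log 2 := by ring
        _ ≤ _ := mul_le_mul_of_nonneg_right hc' hl0.le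
    rw [h1]
    calc ∑ i ∈ Finset.Ico I T, (H (i * Λ) - H ((i + 1) * Λ))
        ≤ ∑ i ∈ Finset.Ico I T, (((if 2 * ((i + 1) * Λ) ≤ k then Λ * Real.log 2 else 0) + x) +
          2 * Λ * Real.log 2 * (if i ∈ F then 1 else 0)) :=
          Finset.sum_le_sum fun i hi => hcard i (Finset.mem_Ico.1 hi).2
      _ = ∑ i ∈ Finset.Ico I T, (if 2 * ((i + 1) * Λ) ≤ k then Λ * Real.log 2 else 0) +
          ((T - I : ℕ) : ℝ) * x +
          2 * Λ * Real.log 2 * ∑ i ∈ Finset.Ico I T, (if i ∈ F then (1 : ℝ) else 0) := by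
          rw [Finset.sum_add_distrib, Finset.sum_add_distrib, Finset.sum_const, Nat.card_Ico,
            nsmul_eq_mul, ← Finset.mul_sum]
      _ ≤ _ := by
          have h2 := mul_le_mul_of_nonneg_left (hFsum (Finset.Ico I T))
            (show 0 ≤ 2 * Λ * Real.log 2 by positivity)
          have h3 : ((T - I : ℕ) : ℝ) * x ≤ T * x :=
            mul_le_mul_of_nonneg_right (by exact_mod_cast Nat.sub_le T I) hx
          linarith
  -- lower bound for H a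
  have lowA : H 0 - H a ≤ a * Real.log 2 + T * x + 2 * Λ * (S / ε + K / Λ + 3) + 2 * Λ + 4 := by
    rcases le_total (T * Λ) a with h | h
    · have h1 := part1 T le_rfl
      have h2 := hH0 a
      have h3 : (T : ℝ) * Λ ≤ a := by exact_mod_cast h
      have h4 := mul_le_mul_of_nonneg_right h3 hl0.le
      linarith
    · have hJ : a / Λ ≤ T := by
        have h1 : a / Λ ≤ T * Λ / Λ := Nat.div_le_div_right h
        rwa [Nat.mul_div_cancel _ hΛ] at h1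
      have h1 := part1 (a / Λ) hJ
      have h2 := Nat.div_mul_le_self a Λ
      have h3 := hH2 (a / Λ * Λ) a h2
      have h4 : a - a / Λ * Λ ≤ Λ := by
        have := Nat.lt_div_mul_add hΛ (a := a)
        omega
      have h5 : ((a - a / Λ * Λ : ℕ) : ℝ) ≤ Λ := by exact_mod_cast h4
      have h6 : ((a / Λ : ℕ) : ℝ) * Λ ≤ a := by exact_mod_cast h2
      have h7 := mul_le_mul_of_nonneg_right h6 hl0.le
      have h8 : 2 * ((a - a / Λ * Λ : ℕ) : ℝ) * Real.log 2 ≤ 2 * Λ := by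
        have h9 : (0 : ℝ) ≤ ((a - a / Λ * Λ : ℕ) : ℝ) := Nat.cast_nonneg _
        nlinarith
      linarith
  have upB : H (a + ℓ) ≤ ((k : ℝ) / 2 - a - ℓ) * Real.log 2 + T * x +
      2 * Λ * (S / ε + K / Λ + 3) + 2 * Λ + 4 := by
    have hk : (a : ℝ) + ℓ ≤ k / 2 := by
      have : (2 * ((a : ℝ) + ℓ)) ≤ k := by exact_mod_cast hal
      linarith
    have hS0 : 0 ≤ S / ε + K / Λ + 3 := le_trans (Nat.cast_nonneg _) hFc
    rcases le_or_gt (T * Λ) (a + ℓ) with h | h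
    · have h1 := hH (T * Λ) (a + ℓ) h
      have h2 : 0 ≤ ((k : ℝ) / 2 - a - ℓ) * Real.log 2 := mul_nonneg (by linarith) hl0.le
      have h3 : 0 ≤ (T : ℝ) * x := by positivity
      have h4 : 0 ≤ 2 * Λ * (S / ε + K / Λ + 3) := by positivity
      linarith
    · obtain ⟨I, hI⟩ : ∃ I, I = (a + ℓ) / Λ + 1 := ⟨_, rfl⟩
      have hIT : I ≤ T := by
        have h1 : (a + ℓ) / Λ < T := by
          rw [Nat.div_lt_iff_lt_mul hΛ]
          exact h
        omega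
      have h2 : a + ℓ ≤ I * Λ := by
        rw [hI]
        have := Nat.lt_div_mul_add hΛ (a := a + ℓ)
        rw [Nat.add_mul, one_mul]
        exact this.le
      have h3 : I * Λ - (a + ℓ) ≤ Λ := by
        rw [hI, Nat.add_mul, one_mul]
        have := Nat.div_mul_le_self (a + ℓ) Λ
        omega
      have h4 := part2 I hIT h2
      have h5 := hH2 (a + ℓ) (I * Λ) h2
      have h6 : ((I * Λ - (a + ℓ) : ℕ) : ℝ) ≤ Λ := by exact_mod_cast h3
      have h8 : 2 * ((I * Λ - (a + ℓ) : ℕ) : ℝ) * Real.log 2 ≤ 2 * Λ := by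
        have h9 : (0 : ℝ) ≤ ((I * Λ - (a + ℓ) : ℕ) : ℝ) := Nat.cast_nonneg _
        nlinarith
      linarith
  linarith

private theorem lo_rpow {p q : ℝ} (h : p < q) :
    (fun x : ℝ => x ^ p) =o[Filter.atTop] fun x : ℝ => x ^ q := by
  have h1 := (isLittleO_log_rpow_atTop (r := q - p) (by linarith))
  have h2 : (fun _ : ℝ => (1 : ℝ)) =o[Filter.atTop] fun x : ℝ => x ^ (q - p) := by
    rw [Asymptotics.isLittleO_const_left]
    right
    exact tendsto_norm_atTop_atTop.comp (tendsto_rpow_atTop (by linarith))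
  have h3 := (Asymptotics.isBigO_refl (fun x : ℝ => x ^ p) Filter.atTop).mul_isLittleO h2
  have h4 : (fun x : ℝ => x ^ p * x ^ (q - p)) =ᶠ[Filter.atTop] fun x : ℝ => x ^ q := by
    filter_upwards [Filter.eventually_gt_atTop 0] with x hx
    rw [← Real.rpow_add hx]
    congr 1
    ring
  have h5 := h3.trans_eventuallyEq h4
  simpa using h5

private theorem big (K : ℝ) (hK : 0 ≤ K) : ∃ k₀ : ℕ, ∀ k : ℕ, k₀ ≤ k →
    4 * (k : ℝ) ^ (1 - 1 / 170 : ℝ) + 4 * K * ((k : ℝ) ^ (7 / 10 : ℝ) * Real.log k) +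
      16 * (k : ℝ) ^ (1 / 2 : ℝ) + K * Real.log k + (4 * K + 8) ≤ (k : ℝ) ^ (1 - 1 / 180 : ℝ) := by
  have h1 : (fun x : ℝ => x ^ (1 - 1 / 170 : ℝ)) =o[Filter.atTop]
      fun x : ℝ => x ^ (1 - 1 / 180 : ℝ) := lo_rpow (by norm_num)
  have h2 : (fun x : ℝ => x ^ (7 / 10 : ℝ) * Real.log x) =o[Filter.atTop]
      fun x : ℝ => x ^ (1 - 1 / 180 : ℝ) := by
    have h := (Asymptotics.isBigO_refl (fun x : ℝ => x ^ (7 / 10 : ℝ)) Filter.atTop).mul_isLittleO
      (isLittleO_log_rpow_atTop (r := 1 - 1 / 180 - 7 / 10) (by norm_num))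
    refine h.trans_eventuallyEq ?_
    filter_upwards [Filter.eventually_gt_atTop 0] with x hx
    rw [← Real.rpow_add hx]
    norm_num
  have h3 : (fun x : ℝ => x ^ (1 / 2 : ℝ)) =o[Filter.atTop]
      fun x : ℝ => x ^ (1 - 1 / 180 : ℝ) := lo_rpow (by norm_num)
  have h4 : Real.log =o[Filter.atTop] fun x : ℝ => x ^ (1 - 1 / 180 : ℝ) :=
    isLittleO_log_rpow_atTop (by norm_num)
  have h5 : (fun _ : ℝ => (4 * K + 8 : ℝ)) =o[Filter.atTop]
      fun x : ℝ => x ^ (1 - 1 / 180 : ℝ) := by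
    rw [Asymptotics.isLittleO_const_left]
    right
    exact tendsto_norm_atTop_atTop.comp (tendsto_rpow_atTop (by norm_num))
  have h6 := ((((h1.const_mul_left 4).add (h2.const_mul_left (4 * K))).add
    (h3.const_mul_left 16)).add (h4.const_mul_left K)).add h5
  have h7 := h6.bound (show (0 : ℝ) < 1 by norm_num)
  have h8 := (tendsto_natCast_atTop_atTop (R := ℝ)).eventually h7
  obtain ⟨k₀, hk₀⟩ := Filter.eventually_atTop.1 h8
  refine ⟨k₀, fun k hk => ?_⟩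
  have h9 := hk₀ k hk
  rw [one_mul] at h9
  have h10 : ‖(k : ℝ) ^ (1 - 1 / 180 : ℝ)‖ = (k : ℝ) ^ (1 - 1 / 180 : ℝ) := by
    rw [Real.norm_of_nonneg (by positivity)]
  rw [h10] at h9
  exact (le_abs_self _).trans h9

theorem accounting (K : ℝ) : ∃ k₀ : ℕ, ∀ k : ℕ, k₀ ≤ k → ∀ (A : Finset G) (p : G → ℝ), Prb A p →
    ∀ T : ℕ, T * Nat.sqrt k ≤ 2 * k → (k : ℝ) / 2 + K ≤ T * Nat.sqrt k →
    hh p (T * Nat.sqrt k) ≤ 4 →
    (k : ℝ) / 2 * Real.log 2 - K * Real.log k ≤ hh p 0 →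
    drop A p 0 (T * Nat.sqrt k) ≤ K * Real.log k →
    (∀ i : ℕ, i < T → 1 ≤ i → 2 * ((i + 1) * Nat.sqrt k) ≤ k →
      drop A p (i * Nat.sqrt k) ((i + 1) * Nat.sqrt k) ≤ (k : ℝ) ^ (-(1 / 5 : ℝ)) →
      hh p (i * Nat.sqrt k) - hh p ((i + 1) * Nat.sqrt k) ≤
        Nat.sqrt k * Real.log 2 + Nat.sqrt k * (k : ℝ) ^ (-(1 / 170 : ℝ))) →
    (∀ i : ℕ, i < T → (k : ℝ) / 2 + K ≤ i * Nat.sqrt k →
      drop A p (i * Nat.sqrt k) ((i + 1) * Nat.sqrt k) ≤ (k : ℝ) ^ (-(1 / 5 : ℝ)) →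
      hh p (i * Nat.sqrt k) - hh p ((i + 1) * Nat.sqrt k) ≤
        Nat.sqrt k * (k : ℝ) ^ (-(1 / 170 : ℝ))) →
    ∀ a ℓ : ℕ, 2 * (a + ℓ) ≤ k →
      ℓ * Real.log 2 - (k : ℝ) ^ (1 - 1 / 180 : ℝ) ≤ hh p a - hh p (a + ℓ) := by
  obtain ⟨k₀, hk₀⟩ := big (max K 0) (le_max_right _ _)
  refine ⟨max k₀ 1, fun k hk A p hp T hT1 hT2 htop hbot hdrop hA hB a ℓ hal => ?_⟩
  have hk1 : 1 ≤ k := le_trans (le_max_right _ _) hk
  have hk' := hk₀ k (le_trans (le_max_left _ _) hk)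
  obtain ⟨M, hM⟩ : ∃ M : ℝ, M = max K 0 := ⟨_, rfl⟩
  rw [← hM] at hk'
  have hM0 : 0 ≤ M := hM ▸ le_max_right _ _
  have hKM : K ≤ M := hM ▸ le_max_left _ _
  obtain ⟨Λ, hΛd⟩ : ∃ Λ : ℕ, Λ = Nat.sqrt k := ⟨_, rfl⟩
  rw [← hΛd] at hT1 hT2 htop hdrop hA hB
  have hΛ : 0 < Λ := by rw [hΛd]; exact Nat.sqrt_pos.2 hk1
  have hΛ' : (0 : ℝ) < Λ := by exact_mod_cast hΛ
  have hkr : (0 : ℝ) < k := by exact_mod_cast hk1
  have hlogk : 0 ≤ Real.log k := Real.log_nonneg (by exact_mod_cast hk1)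
  have hΛk : (Λ : ℝ) ≤ (k : ℝ) ^ (1 / 2 : ℝ) := by
    rw [← Real.sqrt_eq_rpow]
    apply Real.le_sqrt_of_sq_le
    rw [hΛd]
    exact_mod_cast (by rw [pow_two]; exact Nat.sqrt_le k : (Nat.sqrt k) ^ 2 ≤ k)
  have hmain := abs_acc (fun s => hh p s) (fun i => drop A p (i * Λ) ((i + 1) * Λ)) k Λ T M K
    (Λ * (k : ℝ) ^ (-(1 / 170 : ℝ))) ((k : ℝ) ^ (-(1 / 5 : ℝ))) (M * Real.log k) hΛ hM0 hKM
    (by positivity) (by positivity) (fun s t h => hh_diff_nonneg hp h)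
    (fun s t h => hh_diff_le hp h) (fun s => hh_nonneg hp s)
    (fun i => drop_nonneg hp (Nat.mul_le_mul_right Λ (Nat.le_succ i)))
    (by
      have h1 : ∀ J : ℕ, ∑ i ∈ Finset.range J, drop A p (i * Λ) ((i + 1) * Λ) =
          drop A p 0 (J * Λ) := by
        intro J
        induction J with
        | zero =>
            rw [Finset.sum_range_zero, zero_mul]
            have := drop_add A p 0 0 0
            linarith
        | succ J ih => rw [Finset.sum_range_succ, ih, drop_add]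
      rw [h1 T]
      exact hdrop.trans (mul_le_mul_of_nonneg_right hKM hlogk))
    htop hA hB a ℓ hal
  have e1 : (2 : ℝ) * T * (Λ * (k : ℝ) ^ (-(1 / 170 : ℝ))) ≤ 4 * (k : ℝ) ^ (1 - 1 / 170 : ℝ) := by
    have h1 : (T : ℝ) * Λ ≤ 2 * k := by exact_mod_cast hT1
    have h2 : (k : ℝ) ^ (1 - 1 / 170 : ℝ) = k * (k : ℝ) ^ (-(1 / 170 : ℝ)) := by
      rw [sub_eq_add_neg, Real.rpow_add hkr, Real.rpow_one]
    rw [h2]
    have h3 : (0 : ℝ) ≤ (k : ℝ) ^ (-(1 / 170 : ℝ)) := by positivity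
    have h4 := mul_le_mul_of_nonneg_right h1 h3
    linarith
  have e2 : 4 * (Λ : ℝ) * (M * Real.log k / (k : ℝ) ^ (-(1 / 5 : ℝ)) + M / Λ + 3) + 4 * Λ ≤
      4 * M * ((k : ℝ) ^ (7 / 10 : ℝ) * Real.log k) + 16 * (k : ℝ) ^ (1 / 2 : ℝ) + 4 * M := by
    have h1 : M * Real.log k / (k : ℝ) ^ (-(1 / 5 : ℝ)) = M * Real.log k * (k : ℝ) ^ (1 / 5 : ℝ) := by
      rw [Real.rpow_neg hkr.le, div_inv_eq_mul]
    rw [h1]
    have h2 : (Λ : ℝ) * (M / Λ) = M := by field_simp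
    have h3 : (k : ℝ) ^ (7 / 10 : ℝ) = (k : ℝ) ^ (1 / 2 : ℝ) * (k : ℝ) ^ (1 / 5 : ℝ) := by
      rw [← Real.rpow_add hkr]
      norm_num
    rw [h3]
    have h4 : (0 : ℝ) ≤ M * Real.log k * (k : ℝ) ^ (1 / 5 : ℝ) := by positivity
    have h5 := mul_le_mul_of_nonneg_right hΛk h4
    have h6 : 4 * (Λ : ℝ) * (M * Real.log k * (k : ℝ) ^ (1 / 5 : ℝ) + M / Λ + 3) + 4 * Λ =
        4 * (Λ * (M * Real.log k * (k : ℝ) ^ (1 / 5 : ℝ))) + 4 * (Λ * (M / Λ)) + 16 * Λ := by ring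
    rw [h6, h2]
    linarith
  have e3 : K * Real.log k ≤ M * Real.log k := mul_le_mul_of_nonneg_right hKM hlogk
  linarith

end Pool.Agent.Work.MP_0d53be_an.Full
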