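import Pool.Agent.Work.MP_0d53be_an.Full.E.Drop

/-!
# H/Range: a range with small drop for some fold number

For every `η₁ > 0` and `K` there is `m : ℕ` such that for all large `k`: if for each `j < m` the
vector `p j` is a probability vector with support `S j` and
`∑_{j<m} drop (S j) (p j) 0 (2k) ≤ K log k + 6 m`, then there are `j < m` and a natural number `a` with
`k^(1-1/400) ≤ a`, `24 a ≤ k` and `drop (S j) (p j) a (12 a) ≤ η₁`.

Proof. Let `a₀ = ⌈k^(1-1/400)⌉`, `a_i = 12^i a₀`, and `n` the number of the `i` with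
`24 a_i ≤ k`. Since `24 * 12^i * 2 k^(1-1/400) ≤ k` holds for `12^i ≤ k^(1/400)/48`, we have
`n ≥ (log k/400 - log 48)/log 12 - 1 ≥ log k/2000` for large `k` (`log 12 < 2.5`). The intervals
`[a_i, a_{i+1}] ⊆ [0, k] ⊆ [0, 2k]` follow one another. The drops are nonnegative and additive
(`drop_nonneg`, `drop_add`), so `∑_{i<n} drop (S j) (p j) a_i a_{i+1} ≤ drop (S j) (p j) 0 (2k)` for
each `j`. If all `drop (S j) (p j) a_i a_{i+1} > η₁` (`i < n`, `j < m`), then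
`n m η₁ < K log k + 6 m ≤ (|K| + 1) log k` for `k ≥ k₀(m)`, i.e. `m η₁ < 2000 (|K| + 1)`. Choose
`m ≥ 2000 (|K| + 1)/η₁ + 1`.
-/

set_option autoImplicit false

namespace Pool.Agent.Work.MP_0d53be_an.Full

private theorem tele {A : Finset G} {p : G → ℝ} (hp : Prb A p) (a : ℕ → ℕ) (ha : Monotone a)
    (n N : ℕ) (hn : a n ≤ N) : ∑ i ∈ Finset.range n, drop A p (a i) (a (i + 1)) ≤ drop A p 0 N := by
  have h1 : ∑ i ∈ Finset.range n, drop A p (a i) (a (i + 1)) = drop A p (a 0) (a n) := by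
    obtain ⟨f, hf⟩ : ∃ f : ℕ → ℝ, ∀ i, f i = hh p (a i) - hh (conv A p) (a i) := ⟨_, fun _ => rfl⟩
    have h2 : ∀ i, drop A p (a i) (a (i + 1)) = f (i + 1) - f i := by
      intro i
      rw [hf, hf]
      unfold drop
      ring
    rw [Finset.sum_congr rfl fun i _ => h2 i, Finset.sum_range_sub, hf, hf]
    unfold drop
    ring
  have h3 : drop A p 0 N = drop A p 0 (a 0) + drop A p (a 0) (a n) + drop A p (a n) N := by
    unfold drop
    ring
  rw [h1, h3]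
  have h4 := drop_nonneg hp (Nat.zero_le (a 0))
  have h5 := drop_nonneg hp hn
  linarith

private theorem num_bd {k n : ℕ} {a₀ : ℝ} (hL : 4000 ≤ Real.log k) (hn : (n : ℝ) ≤ Real.log k / 2000)
    (ha : a₀ ≤ 2 * (k : ℝ) ^ (1 - 1 / 400 : ℝ)) : 24 * (12 ^ n * a₀) ≤ k := by
  have hk : (0 : ℝ) < k := by
    rcases Nat.eq_zero_or_pos k with h | h
    · rw [h, Nat.cast_zero, Real.log_zero] at hL
      linarith
    · exact_mod_cast h
  have h1 : (k : ℝ) = (k : ℝ) ^ (1 - 1 / 400 : ℝ) * (k : ℝ) ^ (1 / 400 : ℝ) := by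
    rw [← Real.rpow_add hk]
    norm_num
  have h2 : (48 : ℝ) * 12 ^ n ≤ (k : ℝ) ^ (1 / 400 : ℝ) := by
    have h3 : (0 : ℝ) < 48 * 12 ^ n := by positivity
    rw [← Real.exp_log h3, Real.rpow_def_of_pos hk]
    refine Real.exp_le_exp.2 ?_
    rw [Real.log_mul (by norm_num) (by positivity), Real.log_pow]
    have e1 : (2.7 : ℝ) ≤ Real.exp 1 := by
      have := Real.exp_one_gt_d9
      linarith
    have h4 : Real.log 48 ≤ 5 := by
      rw [Real.log_le_iff_le_exp (by norm_num)]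
      have h5 : Real.exp 5 = Real.exp 1 ^ 5 := by
        rw [← Real.exp_nat_mul]
        norm_num
      rw [h5]
      calc (48 : ℝ) ≤ 2.7 ^ 5 := by norm_num
        _ ≤ Real.exp 1 ^ 5 := pow_le_pow_left₀ (by norm_num) e1 5
    have h5 : Real.log 12 ≤ 5 / 2 := by
      rw [Real.log_le_iff_le_exp (by norm_num)]
      have h6 : Real.exp (5 / 2) ^ 2 = Real.exp 1 ^ 5 := by
        rw [← Real.exp_nat_mul, ← Real.exp_nat_mul]
        norm_num
      have h7 : (12 : ℝ) ^ 2 ≤ Real.exp (5 / 2) ^ 2 := by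
        rw [h6]
        calc ((12 : ℝ) ^ 2) ≤ 2.71 ^ 5 := by norm_num
          _ ≤ Real.exp 1 ^ 5 := pow_le_pow_left₀ (by norm_num) (by
            have := Real.exp_one_gt_d9
            linarith) 5
      exact (pow_le_pow_iff_left₀ (by norm_num) (Real.exp_pos _).le (by norm_num)).1 h7
    have h8 : (n : ℝ) * Real.log 12 ≤ Real.log k / 2000 * (5 / 2) :=
      mul_le_mul hn h5 (Real.log_nonneg (by norm_num)) (by positivity)
    linarith
  have h3 : (0 : ℝ) < (k : ℝ) ^ (1 - 1 / 400 : ℝ) := Real.rpow_pos_of_pos hk _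
  have h4 : (0 : ℝ) < 12 ^ n := by positivity
  calc 24 * (12 ^ n * a₀) ≤ 24 * (12 ^ n * (2 * (k : ℝ) ^ (1 - 1 / 400 : ℝ))) := by gcongr
    _ = (k : ℝ) ^ (1 - 1 / 400 : ℝ) * (48 * 12 ^ n) := by ring
    _ ≤ (k : ℝ) ^ (1 - 1 / 400 : ℝ) * (k : ℝ) ^ (1 / 400 : ℝ) := by gcongr
    _ = k := h1.symm

theorem range_exists {η₁ : ℝ} (hη : 0 < η₁) (K : ℝ) : ∃ m : ℕ, 1 ≤ m ∧ ∃ k₀ : ℕ, ∀ k : ℕ,
    k₀ ≤ k → ∀ (S : ℕ → Finset G) (p : ℕ → G → ℝ), (∀ j < m, Prb (S j) (p j)) →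
    ∑ j ∈ Finset.range m, drop (S j) (p j) 0 (2 * k) ≤ K * Real.log k + 6 * m →
    ∃ j < m, ∃ a : ℕ, (k : ℝ) ^ (1 - 1 / 400 : ℝ) ≤ a ∧ 24 * a ≤ k ∧
      drop (S j) (p j) a (12 * a) ≤ η₁ := by
  have hKn := abs_nonneg K
  obtain ⟨m, hm⟩ : ∃ m : ℕ, m = ⌊4000 * (|K| + 1) / η₁⌋₊ + 1 := ⟨_, rfl⟩
  have hm1 : 4000 * (|K| + 1) < m * η₁ := by
    have h1 := Nat.lt_floor_add_one (4000 * (|K| + 1) / η₁)
    rw [div_lt_iff₀ hη] at h1
    rw [hm]
    push_cast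
    exact h1
  refine ⟨m, by omega, ⌈Real.exp (4000 + 6 * m)⌉₊, fun k hk S p hp hsum => ?_⟩
  have hk1 : Real.exp (4000 + 6 * m) ≤ k := (Nat.le_ceil _).trans (by exact_mod_cast hk)
  have hk0 : (0 : ℝ) < k := (Real.exp_pos _).trans_le hk1
  have hL : 4000 + 6 * (m : ℝ) ≤ Real.log k := by
    rw [Real.le_log_iff_exp_le hk0]
    exact hk1
  have hm0 : (0 : ℝ) ≤ m := Nat.cast_nonneg m
  obtain ⟨a₀, ha₀⟩ : ∃ a₀ : ℕ, a₀ = ⌈(k : ℝ) ^ (1 - 1 / 400 : ℝ)⌉₊ := ⟨_, rfl⟩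
  have hk1' : (1 : ℝ) ≤ k := by
    exact_mod_cast (show 1 ≤ k by exact_mod_cast hk0)
  have hr1 : (1 : ℝ) ≤ (k : ℝ) ^ (1 - 1 / 400 : ℝ) := Real.one_le_rpow hk1' (by norm_num)
  have ha1 : (k : ℝ) ^ (1 - 1 / 400 : ℝ) ≤ a₀ := by
    rw [ha₀]
    exact Nat.le_ceil _
  have ha2 : (a₀ : ℝ) ≤ 2 * (k : ℝ) ^ (1 - 1 / 400 : ℝ) := by
    rw [ha₀]
    have := Nat.ceil_lt_add_one (zero_le_one.trans hr1)
    linarith
  obtain ⟨n, hn⟩ : ∃ n : ℕ, n = ⌊Real.log k / 2000⌋₊ := ⟨_, rfl⟩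
  have hn1 : (n : ℝ) ≤ Real.log k / 2000 := by
    rw [hn]
    exact Nat.floor_le (by linarith)
  have hn2 : Real.log k / 4000 ≤ n := by
    have := Nat.lt_floor_add_one (Real.log k / 2000)
    rw [← hn] at this
    linarith
  have hai : ∀ i ≤ n, 24 * (12 ^ i * a₀) ≤ k := by
    intro i hi
    have h1 : (i : ℝ) ≤ Real.log k / 2000 := (Nat.cast_le.2 hi).trans hn1
    have h2 := num_bd (by linarith) h1 ha2
    exact_mod_cast h2
  by_contra hcon
  push Not at hcon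
  have hbig : ∀ j < m, ∀ i < n, η₁ < drop (S j) (p j) (12 ^ i * a₀) (12 ^ (i + 1) * a₀) := by
    intro j hj i hi
    have h1 : (12 : ℕ) ^ (i + 1) * a₀ = 12 * (12 ^ i * a₀) := by ring
    rw [h1]
    refine hcon j hj (12 ^ i * a₀) ?_ (hai i hi.le)
    push_cast
    have h2 : (1 : ℝ) ≤ 12 ^ i := one_le_pow₀ (by norm_num)
    nlinarith
  have hmono : Monotone fun i : ℕ => 12 ^ i * a₀ := by
    intro i j hij
    exact Nat.mul_le_mul_right _ (Nat.pow_le_pow_right (by norm_num) hij)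
  have hj : ∀ j < m, (n : ℝ) * η₁ ≤ drop (S j) (p j) 0 (2 * k) := by
    intro j hj
    have h1 := tele (hp j hj) (fun i => 12 ^ i * a₀) hmono n (2 * k) (by
      have := hai n le_rfl
      show 12 ^ n * a₀ ≤ 2 * k
      omega)
    refine le_trans ?_ h1
    have h2 : ∑ _i ∈ Finset.range n, η₁ ≤
        ∑ i ∈ Finset.range n, drop (S j) (p j) (12 ^ i * a₀) (12 ^ (i + 1) * a₀) :=
      Finset.sum_le_sum fun i hi => (hbig j hj i (Finset.mem_range.1 hi)).le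
    rw [Finset.sum_const, Finset.card_range, nsmul_eq_mul] at h2
    exact h2
  have htot : (m : ℝ) * (n * η₁) ≤ K * Real.log k + 6 * m := by
    refine le_trans ?_ hsum
    have h2 : ∑ _j ∈ Finset.range m, (n : ℝ) * η₁ ≤
        ∑ j ∈ Finset.range m, drop (S j) (p j) 0 (2 * k) :=
      Finset.sum_le_sum fun j hj' => hj j (Finset.mem_range.1 hj')
    rw [Finset.sum_const, Finset.card_range, nsmul_eq_mul] at h2
    exact h2
  have hLp : 0 < Real.log k := by linarith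
  have h5 : K * Real.log k ≤ |K| * Real.log k := mul_le_mul_of_nonneg_right (le_abs_self K) hLp.le
  have h6 : (m : ℝ) * η₁ * (Real.log k / 4000) ≤ (m : ℝ) * (n * η₁) := by
    have h7 : (0 : ℝ) ≤ m * η₁ := by positivity
    nlinarith
  have h8 : (m : ℝ) * η₁ * (Real.log k / 4000) ≤ (|K| + 1) * Real.log k := by
    have h9 : 6 * (m : ℝ) ≤ Real.log k := by linarith
    linarith
  have h9 : (4000 * (|K| + 1)) * (Real.log k / 4000) < m * η₁ * (Real.log k / 4000) :=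
    mul_lt_mul_of_pos_right hm1 (by positivity)
  have h10 : (4000 * (|K| + 1)) * (Real.log k / 4000) = (|K| + 1) * Real.log k := by ring
  linarith

end Pool.Agent.Work.MP_0d53be_an.Full
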