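import Pool.Agent.Work.MP_0d53be_an.Full.F.Cov
import Pool.Agent.Work.MP_0d53be_an.Full.G.Cells
import Pool.Agent.Work.MP_0d53be_an.Full.G.Fat

/-!
# H/RunA: no dense part of the plane means at most one bit per scale

Let `Λ = Nat.sqrt k`, `t = s + Λ`. If `drop A p s t ≤ k^(-1/5)` and the sum set `A + A` is not
`PlaneDense` at any `q` and any scale `w ∈ [2^s, 2^t]` with `J = k^11`, then
`hh p s - hh p t ≤ Λ log 2 + Λ k^(-1/170)`, for all `k ≥ k₀` (absolute).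

Proof. Parameters (all for `k` large): `η = k^(-1/80)`, so `drop ≤ η^16`, `η < 1/16`.
`c = ⌊log₂ k / 160⌋ - 10` (natural number `≥ 4`), so `2^c ≤ 2^(-10) k^(1/160)`,
`2^(-c) ≤ 2^11 k^(-1/160)`, `2^(2c+11) ≤ 2^(-9) k^(1/80)`, hence `η 2^(2c+11) ≤ 1`. `v = t - c`,
`τ = 3 * 2^s`, `V = 2^v/8`, `J = k^11`, `N₀ = Λ + 1`, `ρ = 16 J τ + 40 N₀ τ`. `2 V < 2^N₀ ρ` since
`V ≤ 2^t`, `ρ ≥ 16 * 3 * 2^s`. `r` = the largest integer with `2^r ≤ 2^v / (1200 J)`, so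
`2^r ≥ 2^v/(2400 J)`, `t - r ≤ c + log₂ (2400 k^11) + 1 = O(log k)`; `s ≤ r`, `r + 4 ≤ v` for large
`k` since `Λ` is much larger than `log k`.
Let `(w, w')` be a good pair, `D = DC A p s t v η w w'`: an `AppGrp` (`app_grp`), `q` from
`coverage`. Apply `strip_or_plane` with `J, N₀, ρ`.
Case (P): a real `w₀` with `ρ ≤ 4 w₀`, `100 J w₀ ≤ V`; for `‖ζ‖ ≤ J w₀` there is `d ∈ D` with
`‖d - ζ‖ ≤ 5 w₀`, and `z ∈ A + A` with `‖toC z - (q + d)‖ ≤ 3 * 2^s ≤ w₀`; so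
`PlaneDense (A + A) q w₀ J` with `2^s ≤ w₀ ≤ 2^t`: excluded.
Case (S): `ν ≠ 0`. For `x, y ∈ Gs` with `z - x, z - y ∈ box r`:
`‖toC (x - y)‖ ≤ √2 2^r ≤ V/(100 J)` (`V = 2^v/8`), so `toC (x-y) ∈ D` and there is a real `a` with
`‖toC (x - y) - a ν‖ ≤ 2 ρ`. By `cells_strip` the hypothesis of `ent_bound` holds with
`N = 2^(r-s) (8 ρ/2^s + 4)`. Hence
`hh p s - hh p r ≤ (r-s) log 2 + log (8 ρ/2^s + 4) + log 2 + (4 η² + 48 η^4 + 64/2^c) 2 Λ log 2`,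
and `hh p r - hh p t ≤ 2 (t - r) log 2` (`hh_diff_le`). Since `8ρ/2^s + 4 ≤ k^13`,
`(4 η² + 48 η⁴) ≤ 52 k^(-1/40)` and `64/2^c ≤ 2^17 k^(-1/160)`, the excess over `Λ log 2` is
`O(log k) + Λ O(k^(-1/160)) ≤ Λ k^(-1/170)` for large `k`.
-/

set_option autoImplicit false

namespace Pool.Agent.Work.MP_0d53be_an.Full

open scoped Pointwise

private theorem ra_coord {r : ℕ} {z x y : G} (hx : z - x ∈ box r) (hy : z - y ∈ box r) :
    |(x - y).1| < 2 ^ r ∧ |(x - y).2| < 2 ^ r := by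
  unfold box at hx hy
  rw [Finset.mem_product, Finset.mem_Ico, Finset.mem_Ico] at hx hy
  obtain ⟨⟨a1, a2⟩, b1, b2⟩ := hx
  obtain ⟨⟨c1, c2⟩, d1, d2⟩ := hy
  simp only [Prod.fst_sub, Prod.snd_sub] at *
  constructor <;> rw [abs_lt] <;> constructor <;> linarith

private theorem ra_core {A : Finset G} {p : G → ℝ} (hp : Prb A p) {s r v t : ℕ} (hsr : s ≤ r)
    (hrv : r + 4 ≤ v) (hvt : v + 4 ≤ t)
    {η : ℝ} (hη : 0 < η) (h16 : η < 1 / 16) (hd : drop A p s t ≤ η ^ 16)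
    (hsm : η * 2 ^ (2 * (t - v) + 11) ≤ 1) {J ρ : ℝ} (hJ : 1 ≤ J) {N₀ : ℕ}
    (hρ : 16 * J * (3 * 2 ^ s) + 40 * N₀ * (3 * 2 ^ s) ≤ ρ) (hN : 2 * (2 ^ v / 8) < 2 ^ N₀ * ρ)
    (hr : 1200 * J * 2 ^ r ≤ 2 ^ v)
    (hno : ∀ (q : ℂ) (w : ℝ), 2 ^ s ≤ w → w ≤ 2 ^ t → ¬ PlaneDense (A + A) q w J) :
    hh p s - hh p t ≤ (r - s : ℕ) * Real.log 2 + Real.log (8 * ρ / 2 ^ s + 4) + Real.log 2 +
      (4 * η ^ 2 + 48 * η ^ 4 + 64 / 2 ^ (t - v)) * (2 * (r - s : ℕ) * Real.log 2) +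
      2 * (t - r : ℕ) * Real.log 2 := by
  have hs0 : (0 : ℝ) < 2 ^ s := by positivity
  have hr0 : (0 : ℝ) < 2 ^ r := by positivity
  have hτ : (0 : ℝ) < 3 * 2 ^ s := by positivity
  have hρ0 : 48 * 2 ^ s ≤ ρ := by
    have h1 : (0 : ℝ) ≤ 40 * N₀ * (3 * 2 ^ s) := by positivity
    have h2 : (48 : ℝ) * 2 ^ s ≤ 16 * J * (3 * 2 ^ s) := by nlinarith
    linarith
  have hρp : 0 ≤ ρ := by linarith
  set N : ℝ := 2 ^ (r - s) * (8 * ρ / 2 ^ s + 4) with hNd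
  have hq0 : 0 ≤ 8 * ρ / 2 ^ s := by positivity
  have hN1 : 1 ≤ N := by
    have h1 : (1 : ℝ) ≤ 2 ^ (r - s) := one_le_pow₀ (by norm_num)
    rw [hNd]
    nlinarith
  have hcell : ∀ w w', GoodPair A p s t v η w w' → ∀ z, (∀ b ∈ box r, z - b ∈ hull v t w') →
      ((cellsMeeting s r z (Gs A p s t v η w w')).card : ℝ) ≤ N := by
    intro w w' hg z _
    have hD := app_grp hp (by omega) (by omega) (by omega) hη h16 hg
    obtain ⟨q, hq⟩ := coverage hp (by omega) (by omega) hη hsm hg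
    rcases strip_or_plane hD hτ hJ hρ hN with ⟨ν, hν, hS⟩ | ⟨w₀, hw1, hw2, hP⟩
    · apply cells_strip hsr hρp hν
      intro x hx y hy hzx hzy
      obtain ⟨c1, c2⟩ := ra_coord hzx hzy
      have h1 : ‖toC (x - y)‖ ≤ 3 / 2 * ((2 ^ r : ℤ) : ℝ) := norm_toC_lt c1 c2
      push_cast at h1
      apply hS
      · refine ⟨x, hx, y, hy, rfl, ?_⟩
        nlinarith
      · nlinarith [norm_nonneg (toC (x - y))]
    · exfalso
      have hw3 : 12 * 2 ^ s ≤ w₀ := by linarith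
      have hv2 : (2 : ℝ) ^ v ≤ 2 ^ t := pow_le_pow_right₀ (by norm_num) (by omega)
      have hv0 : (0 : ℝ) < 2 ^ v := by positivity
      apply hno q w₀ (by linarith) (by nlinarith)
      intro ζ hζ
      obtain ⟨d, hd1, hd2⟩ := hP ζ hζ
      obtain ⟨z, hz1, hz2⟩ := hq d hd1
      refine ⟨z, hz1, ?_⟩
      have h1 : toC z - (q + ζ) = (toC z - (q + d)) + (d - ζ) := by ring
      rw [h1]
      have h2 := norm_add_le (toC z - (q + d)) (d - ζ)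
      linarith
  have h1 := ent_bound hp hsr hrv hvt hη hd hN1 hcell
  have h2 := hh_diff_le hp (show r ≤ t by omega)
  have h3 : Real.log N = (r - s : ℕ) * Real.log 2 + Real.log (8 * ρ / 2 ^ s + 4) := by
    rw [hNd, Real.log_mul (by positivity) (by positivity), Real.log_pow]
  linarith

private theorem ra_ev : ∃ k₀ : ℕ, ∀ k : ℕ, k₀ ≤ k → 2 ^ 2240 ≤ k ∧
    26 * Real.log k ≤ 1 / 4 * (k : ℝ) ^ (1 / 2 - 1 / 170 : ℝ) ∧
    (2 : ℝ) ^ 20 ≤ (k : ℝ) ^ (1 / 160 - 1 / 170 : ℝ) := by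
  have e1 : ∀ᶠ x : ℝ in Filter.atTop, 26 * Real.log x ≤ 1 / 4 * x ^ (1 / 2 - 1 / 170 : ℝ) := by
    have h1 := (isLittleO_log_rpow_atTop (show (0 : ℝ) < 1 / 2 - 1 / 170 by norm_num)).bound
      (show (0 : ℝ) < 1 / 104 by norm_num)
    filter_upwards [h1, Filter.eventually_ge_atTop (1 : ℝ)] with x hx hx1
    rw [Real.norm_eq_abs, Real.norm_eq_abs, abs_of_nonneg (Real.log_nonneg hx1),
      abs_of_nonneg (Real.rpow_nonneg (by linarith) _)] at hx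
    linarith
  have e2 : ∀ᶠ x : ℝ in Filter.atTop, (2 : ℝ) ^ 20 ≤ x ^ (1 / 160 - 1 / 170 : ℝ) :=
    (tendsto_rpow_atTop (show (0 : ℝ) < 1 / 160 - 1 / 170 by norm_num)).eventually_ge_atTop _
  have f1 := tendsto_natCast_atTop_atTop.eventually e1
  have f2 := tendsto_natCast_atTop_atTop.eventually e2
  have f3 := Filter.eventually_ge_atTop (2 ^ 2240 : ℕ)
  obtain ⟨k₀, hk₀⟩ := Filter.eventually_atTop.1 (f3.and (f1.and f2))
  exact ⟨k₀, fun k hk => hk₀ k hk⟩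

theorem runA : ∃ k₀ : ℕ, ∀ k : ℕ, k₀ ≤ k → ∀ (A : Finset G) (p : G → ℝ), Prb A p → ∀ s : ℕ,
    drop A p s (s + Nat.sqrt k) ≤ (k : ℝ) ^ (-(1 / 5 : ℝ)) →
    (∀ (q : ℂ) (w : ℝ), 2 ^ s ≤ w → w ≤ 2 ^ (s + Nat.sqrt k) →
      ¬ PlaneDense (A + A) q w ((k : ℝ) ^ 11)) →
    hh p s - hh p (s + Nat.sqrt k) ≤
      Nat.sqrt k * Real.log 2 + Nat.sqrt k * (k : ℝ) ^ (-(1 / 170 : ℝ)) := by
  obtain ⟨k₀, hk₀⟩ := ra_ev
  refine ⟨k₀, ?_⟩
  intro k hk A p hp s hd hno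
  obtain ⟨g1, g2, g3⟩ := hk₀ k hk
  have hL : 2240 ≤ Nat.log 2 k := Nat.le_log_of_pow_le (by norm_num) g1
  have hk0 : k ≠ 0 := by
    intro h0
    rw [h0, Nat.log_zero_right] at hL
    omega
  have hL1 : 2 ^ Nat.log 2 k ≤ k := Nat.pow_log_le_self 2 hk0
  have hL2 : k < 2 ^ (Nat.log 2 k + 1) := Nat.lt_pow_succ_log_self (by norm_num) k
  clear g1
  obtain ⟨L, hLd⟩ : ∃ L, L = Nat.log 2 k := ⟨_, rfl⟩
  rw [← hLd] at hL hL1 hL2
  obtain ⟨c, hcd⟩ : ∃ c, c = L / 160 - 10 := ⟨_, rfl⟩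
  have hc4 : 4 ≤ c := by omega
  have hcL : 160 * (c + 10) ≤ L := by omega
  have hcL2 : L + 1 ≤ 160 * (c + 11) := by omega
  obtain ⟨Λ, hΛd⟩ : ∃ Λ, Λ = Nat.sqrt k := ⟨_, rfl⟩
  rw [← hΛd] at hd hno ⊢
  have hΛ1 : Λ * Λ ≤ k := by rw [hΛd]; exact Nat.sqrt_le k
  have hΛ2 : k < (Λ + 1) * (Λ + 1) := by rw [hΛd]; exact Nat.lt_succ_sqrt k
  obtain ⟨x, hxd⟩ : ∃ x : ℝ, x = (k : ℝ) := ⟨_, rfl⟩
  rw [← hxd] at g2 g3 hd hno ⊢
  have hx1 : (2 : ℝ) ^ L ≤ x := by rw [hxd]; exact_mod_cast hL1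
  have hx2 : x ≤ (2 : ℝ) ^ (L + 1) := by rw [hxd]; exact_mod_cast hL2.le
  have h2048 : (2048 : ℝ) ≤ x := by
    refine le_trans ?_ hx1
    calc (2048 : ℝ) = 2 ^ 11 := by norm_num
      _ ≤ 2 ^ L := pow_le_pow_right₀ (by norm_num) (by omega)
  have hx0 : 0 < x := by linarith
  have hΛr1 : (Λ : ℝ) * Λ ≤ x := by rw [hxd]; exact_mod_cast hΛ1
  have hΛr2 : x ≤ ((Λ : ℝ) + 1) * (Λ + 1) := by rw [hxd]; exact_mod_cast hΛ2.le
  have hΛ45 : (4 : ℝ) ≤ Λ := by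
    by_contra hcon
    push Not at hcon
    have h0 : (0 : ℝ) ≤ Λ := Nat.cast_nonneg _
    nlinarith
  have hΛhalf : x ^ (1 / 2 : ℝ) ≤ 2 * Λ := by
    have h1 : x ^ (1 / 2 : ℝ) ≤ Λ + 1 := by
      rw [← Real.sqrt_eq_rpow]
      apply Real.sqrt_le_iff.2
      constructor
      · linarith
      · nlinarith
    linarith
  -- the 160th root
  obtain ⟨y, hyd⟩ : ∃ y : ℝ, y = x ^ (1 / 160 : ℝ) := ⟨_, rfl⟩
  have hy0 : 0 < y := by rw [hyd]; exact Real.rpow_pos_of_pos hx0 _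
  have hy160 : y ^ 160 = x := by
    rw [hyd, ← Real.rpow_natCast, ← Real.rpow_mul hx0.le]
    norm_num
  have hy1 : (2 : ℝ) ^ (c + 10) ≤ y := by
    rw [← pow_le_pow_iff_left₀ (by positivity) hy0.le (show 160 ≠ 0 by norm_num), hy160, ← pow_mul]
    exact (pow_le_pow_right₀ (by norm_num) (by omega)).trans hx1
  have hy2 : y ≤ (2 : ℝ) ^ (c + 11) := by
    rw [← pow_le_pow_iff_left₀ hy0.le (by positivity) (show 160 ≠ 0 by norm_num), hy160, ← pow_mul]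
    exact hx2.trans (pow_le_pow_right₀ (by norm_num) (by omega))
  have hy14 : (16384 : ℝ) ≤ y := by
    refine le_trans ?_ hy1
    calc (16384 : ℝ) = 2 ^ 14 := by norm_num
      _ ≤ 2 ^ (c + 10) := pow_le_pow_right₀ (by norm_num) (by omega)
  obtain ⟨η, hηd⟩ : ∃ η : ℝ, η = (y ^ 2)⁻¹ := ⟨_, rfl⟩
  have hη0 : 0 < η := by rw [hηd]; positivity
  have hη1 : η ≤ y⁻¹ := by
    rw [hηd]
    apply inv_anti₀ hy0
    nlinarith
  have hyi : y⁻¹ ≤ 1 / 16384 := by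
    rw [← one_div]
    exact one_div_le_one_div_of_le (by norm_num) hy14
  have hη16 : η < 1 / 16 := by linarith [show (1 : ℝ) / 16384 < 1 / 16 by norm_num]
  have hη16p : η ^ 16 = x ^ (-(1 / 5 : ℝ)) := by
    rw [hηd, inv_pow, ← pow_mul, Real.rpow_neg hx0.le, hyd, ← Real.rpow_natCast,
      ← Real.rpow_mul hx0.le]
    norm_num
  have hsm : η * 2 ^ (2 * c + 11) ≤ 1 := by
    have h1 : (2 : ℝ) ^ (2 * c + 11) ≤ y ^ 2 := by
      calc (2 : ℝ) ^ (2 * c + 11) ≤ 2 ^ ((c + 10) * 2) := pow_le_pow_right₀ (by norm_num) (by omega)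
        _ = (2 ^ (c + 10)) ^ 2 := pow_mul _ _ _
        _ ≤ y ^ 2 := pow_le_pow_left₀ (by positivity) hy1 2
    rw [hηd, inv_mul_le_iff₀ (by positivity), mul_one]
    exact h1
  -- logarithms
  have hl2a : (1 / 2 : ℝ) ≤ Real.log 2 := by linarith [Real.log_two_gt_d9]
  have hl2b : Real.log 2 ≤ 1 := by linarith [Real.log_two_lt_d9]
  have hLlog : (L : ℝ) * Real.log 2 ≤ Real.log x := by
    rw [← Real.log_pow]
    exact Real.log_le_log (by positivity) hx1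
  have hLr : (2240 : ℝ) ≤ L := by exact_mod_cast hL
  have hlog0 : 0 ≤ Real.log x := Real.log_nonneg (by linarith)
  have hcLr : (c : ℝ) ≤ L := by
    have : c ≤ L := by omega
    exact_mod_cast this
  have hhalfpow : x ^ (1 / 2 - 1 / 170 : ℝ) ≤ x ^ (1 / 2 : ℝ) :=
    Real.rpow_le_rpow_of_exponent_le (by linarith) (by norm_num)
  obtain ⟨a, had⟩ : ∃ a, a = 11 * L + 22 := ⟨_, rfl⟩
  have hcaΛ : c + a ≤ Λ := by
    have h1 : ((c + a : ℕ) : ℝ) ≤ Λ := by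
      have h2 : ((c + a : ℕ) : ℝ) ≤ 12 * L + 22 := by
        rw [had]
        push_cast
        linarith
      have h3 : (12 : ℝ) * L + 22 ≤ 13 * L := by linarith
      have h4 : (13 : ℝ) * L ≤ 26 * Real.log x := by nlinarith
      linarith
    exact_mod_cast h1
  obtain ⟨n, hn⟩ : ∃ n, Λ = n + (c + a) := ⟨Λ - (c + a), by omega⟩
  have hv1 : s + n + a + c = s + Λ := by omega
  -- the core
  have hΛp1 : ((Λ + 1 : ℕ) : ℝ) ≤ x := by
    push_cast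
    nlinarith
  have hxx : x ≤ x ^ 11 := le_self_pow₀ (by linarith) (by norm_num)
  have hx11 : 1 ≤ x ^ 11 := one_le_pow₀ (by linarith)
  have hs0 : (0 : ℝ) < 2 ^ s := by positivity
  have hcore := ra_core hp (s := s) (r := s + n) (v := s + n + a) (t := s + Λ) (by omega)
    (by omega) (by omega) hη0 hη16 (hd.trans hη16p.ge)
    (by rw [show s + Λ - (s + n + a) = c by omega]; exact hsm) (J := x ^ 11)
    (ρ := 16 * x ^ 11 * (3 * 2 ^ s) + 40 * ((Λ + 1 : ℕ) : ℝ) * (3 * 2 ^ s)) hx11 (N₀ := Λ + 1) le_rfl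
    (by
      have h1 : (2 : ℝ) ^ (s + n + a) ≤ 2 ^ (Λ + 1) * 2 ^ s := by
        rw [← pow_add]
        exact pow_le_pow_right₀ (by norm_num) (by omega)
      have h2 : (2 : ℝ) ^ s ≤ 16 * x ^ 11 * (3 * 2 ^ s) + 40 * ((Λ + 1 : ℕ) : ℝ) * (3 * 2 ^ s) := by
        have h3 : (0 : ℝ) ≤ 40 * ((Λ + 1 : ℕ) : ℝ) * (3 * 2 ^ s) := by positivity
        nlinarith
      have h4 : (2 : ℝ) ^ (Λ + 1) * 2 ^ s ≤ 2 ^ (Λ + 1) *
          (16 * x ^ 11 * (3 * 2 ^ s) + 40 * ((Λ + 1 : ℕ) : ℝ) * (3 * 2 ^ s)) :=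
        mul_le_mul_of_nonneg_left h2 (by positivity)
      have h5 : (0 : ℝ) < 2 ^ (s + n + a) := by positivity
      linarith)
    (by
      have h1 : x ^ 11 * 2048 ≤ (2 : ℝ) ^ a := by
        calc x ^ 11 * 2048 ≤ (2 ^ (L + 1)) ^ 11 * 2048 :=
              mul_le_mul_of_nonneg_right (pow_le_pow_left₀ hx0.le hx2 11) (by norm_num)
          _ = 2 ^ a := by
            rw [← pow_mul, show (2048 : ℝ) = 2 ^ 11 by norm_num, ← pow_add, had]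
            congr 1
            ring
      have h2 : (0 : ℝ) < 2 ^ (s + n) := by positivity
      rw [pow_add (2 : ℝ) (s + n) a]
      nlinarith)
    hno
  rw [show s + n - s = n by omega, show s + Λ - (s + n + a) = c by omega,
    show s + Λ - (s + n) = c + a by omega] at hcore
  -- the bound of the logarithm
  have hT1 : Real.log (8 * (16 * x ^ 11 * (3 * 2 ^ s) + 40 * ((Λ + 1 : ℕ) : ℝ) * (3 * 2 ^ s)) /
      2 ^ s + 4) ≤ 13 * Real.log x := by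
    have h1 : 8 * (16 * x ^ 11 * (3 * 2 ^ s) + 40 * ((Λ + 1 : ℕ) : ℝ) * (3 * 2 ^ s)) /
        2 ^ s + 4 = 384 * x ^ 11 + 960 * ((Λ + 1 : ℕ) : ℝ) + 4 := by
      field_simp
      ring
    rw [h1, show (13 : ℝ) * Real.log x = ((13 : ℕ) : ℝ) * Real.log x by norm_num, ← Real.log_pow]
    apply Real.log_le_log (by positivity)
    have h2 : 384 * x ^ 11 + 960 * ((Λ + 1 : ℕ) : ℝ) + 4 ≤ 1348 * x ^ 11 := by linarith
    have h3 : 1348 * x ^ 11 ≤ x ^ 2 * x ^ 11 :=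
      mul_le_mul_of_nonneg_right (by nlinarith) (by positivity)
    calc _ ≤ 1348 * x ^ 11 := h2
      _ ≤ x ^ 2 * x ^ 11 := h3
      _ = x ^ 13 := by ring
  have hE : 4 * η ^ 2 + 48 * η ^ 4 + 64 / 2 ^ c ≤ 2 ^ 18 * y⁻¹ := by
    have hηle : η ≤ 1 := by linarith
    have h1 : η ^ 2 ≤ y⁻¹ := by
      refine le_trans ?_ hη1
      exact pow_le_of_le_one hη0.le hηle (by norm_num)
    have h2 : η ^ 4 ≤ y⁻¹ := by
      refine le_trans ?_ hη1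
      exact pow_le_of_le_one hη0.le hηle (by norm_num)
    have h3 : (64 : ℝ) / 2 ^ c ≤ 131072 * y⁻¹ := by
      rw [← div_eq_mul_inv, div_le_div_iff₀ (by positivity) hy0]
      rw [pow_add] at hy2
      norm_num at hy2
      linarith
    have h4 : 0 < y⁻¹ := inv_pos.2 hy0
    norm_num
    linarith
  have hyy : (2 : ℝ) ^ 20 * y⁻¹ ≤ x ^ (-(1 / 170 : ℝ)) := by
    rw [mul_inv_le_iff₀ hy0, hyd, ← Real.rpow_add hx0]
    refine g3.trans (le_of_eq ?_)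
    norm_num
  have hΛx : 26 * Real.log x ≤ 1 / 2 * (Λ * x ^ (-(1 / 170 : ℝ))) := by
    refine g2.trans ?_
    rw [sub_eq_add_neg, Real.rpow_add hx0]
    have h1 : 0 < x ^ (-(1 / 170 : ℝ)) := Real.rpow_pos_of_pos hx0 _
    nlinarith
  have hE2 : (4 * η ^ 2 + 48 * η ^ 4 + 64 / 2 ^ c) * (2 * (n : ℝ) * Real.log 2) ≤
      1 / 2 * (Λ * x ^ (-(1 / 170 : ℝ))) := by
    have hn0 : (0 : ℝ) ≤ n := Nat.cast_nonneg _
    have hnΛ : (n : ℝ) ≤ Λ := by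
      have : n ≤ Λ := by omega
      exact_mod_cast this
    have hyi0 : 0 < y⁻¹ := inv_pos.2 hy0
    have h1 : 2 * (n : ℝ) * Real.log 2 ≤ 2 * Λ := by nlinarith
    have h2 : (0 : ℝ) ≤ 2 * (n : ℝ) * Real.log 2 := by positivity
    calc (4 * η ^ 2 + 48 * η ^ 4 + 64 / 2 ^ c) * (2 * (n : ℝ) * Real.log 2)
        ≤ (2 ^ 18 * y⁻¹) * (2 * (n : ℝ) * Real.log 2) := mul_le_mul_of_nonneg_right hE h2
      _ ≤ (2 ^ 18 * y⁻¹) * (2 * Λ) := mul_le_mul_of_nonneg_left h1 (by positivity)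
      _ = 1 / 2 * (Λ * (2 ^ 20 * y⁻¹)) := by ring
      _ ≤ 1 / 2 * (Λ * x ^ (-(1 / 170 : ℝ))) := by
        have h3 : (0 : ℝ) ≤ Λ := by linarith
        have h4 := mul_le_mul_of_nonneg_left hyy h3
        linarith
  have hca : ((c + a : ℕ) : ℝ) * Real.log 2 ≤ 12 * Real.log x + 22 * Real.log 2 := by
    rw [had]
    push_cast
    have h1 : (c : ℝ) * Real.log 2 ≤ L * Real.log 2 := mul_le_mul_of_nonneg_right hcLr (by linarith)
    nlinarith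
  have h23 : 23 * Real.log 2 ≤ Real.log x := by
    have h1 : (23 : ℝ) * Real.log 2 ≤ L * Real.log 2 :=
      mul_le_mul_of_nonneg_right (by linarith) (by linarith)
    linarith
  have hΛn : (Λ : ℝ) = n + ((c + a : ℕ) : ℝ) := by exact_mod_cast hn
  have hΛn2 : (Λ : ℝ) * Real.log 2 = n * Real.log 2 + ((c + a : ℕ) : ℝ) * Real.log 2 := by
    rw [hΛn]
    ring
  linarith

end Pool.Agent.Work.MP_0d53be_an.Full
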