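import Pool.Agent.Work.MP_0d53be_an.Full.F.Cov
import Pool.Agent.Work.MP_0d53be_an.Full.G.Cells
import Pool.Agent.Work.MP_0d53be_an.Full.G.Line

/-!
# H/RunB: flat sets without long horizontal lines have almost no entropy in a run

Let `Λ = Nat.sqrt k`, `t = s + Λ`, `|x.2 - y.2| ≤ 2^s` for `x, y ∈ A`, `drop A p s t ≤ k^(-1/5)`.
If `A + A` is not `LineDense` at any `q` in the direction `1` with mesh `2^t/k^11` and length
`2^t/k`, then `hh p s - hh p t ≤ Λ k^(-1/170)`, for all `k ≥ k₀`.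

Proof. `η = k^(-1/80)`, `c = ⌊log₂ k/160⌋ - 10`, `v = t - c`, `τ = 3 * 2^s`, `V = 2^v/8` as in
H/RunA: `η < 1/16`, `η 2^(2c+11) ≤ 1`, `2^(-c) ≤ 2^11 k^(-1/160)`; `V ≥ 2^t k^(-1/160)`. `J = k^11`,
`r` the largest integer with `2^r ≤ 2^v/(1200 J)`.
(1) Claim: for every good pair `(w, w')` every `d ∈ D = DC A p s t v η w w'` with `100 J ‖d‖ ≤ V`
has `‖d‖ < 8 τ = 24 * 2^s`. Suppose `u ∈ D`, `8 τ ≤ ‖u‖`, `100 J ‖u‖ ≤ V`. `D` is an `AppGrp`
(`app_grp`); `line_of` gives `n`, `ν`, `‖ν - u‖ ≤ τ`, `2^n ‖u‖ ≤ 2 V`, so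
`2^n ≤ 2 V/(24 * 2^s) ≤ 2^Λ`, `n ≤ Λ`. Let `q` be from `coverage`. All `d ∈ D` have
`|Im d| ≤ 2^s` (`d = toC (x - y)`, `x, y ∈ A`). Put `E = 2^s + 2 n τ`. Let
`m = ⌊V/(4 ‖ν‖)⌋ ≥ 1`; `m ‖ν‖ ≥ V/8`. There is `d ∈ D` with `‖d - m ν‖ ≤ 2 n τ`, so
`m |Im ν| ≤ E`, and `|Im (j ν)| ≤ E` for all `|j| ≤ m`. Since
`|Im ν| ≤ E/m ≤ 8 E ‖ν‖/V ≤ ‖ν‖/4` (`32 E ≤ V`), `|Re ν| ≥ (3/4) ‖ν‖`. Let `|a| ≤ 2^t/k`,
`j = round (a / Re ν)`: `|a - j Re ν| ≤ ‖ν‖/2`, `|j| ‖ν‖ ≤ (4/3)|a| + ‖ν‖`, so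
`4 |j| ‖ν‖ ≤ 6 * 2^t/k + 4 ‖ν‖ ≤ V`. Some `d ∈ D` has `‖d - jν‖ ≤ 2 n τ`, and some `z ∈ A + A` has
`‖toC z - (q + d)‖ ≤ τ`. So `‖toC z - (q + a)‖ ≤ τ + 2 n τ + E + ‖ν‖/2
≤ (4 Λ + 2) τ + ‖u‖ + τ ≤ 2^t/k^11`, because `‖u‖ ≤ V/(100 k^11) ≤ 2^t/(800 k^11)` and
`(4Λ + 3) 3 * 2^s ≤ 2^t/(2 k^11)` for large `k` (`2^Λ` is much larger than `k^12`). This
contradicts the hypothesis.
(2) For `x, y ∈ Gs` with `z - x, z - y ∈ box r`: `‖toC (x - y)‖ ≤ √2 2^r ≤ V/(100 J)` and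
`8 ‖toC (x-y)‖ ≤ 2^v`, so `toC (x - y) ∈ D` and `‖toC (x-y)‖ ≤ 24 * 2^s` by (1). `cells_point` with
`ρ = 24 * 2^s`: at most `27² = 729` cells. `ent_bound` with `N = 729`:
`hh p s - hh p r ≤ log 729 + log 2 + (4 η² + 48 η^4 + 64/2^c) 2 Λ log 2`, and
`hh p r - hh p t ≤ 2 (t - r) log 2 = O(log k)`. The total is at most `Λ k^(-1/170)` for large `k`.
-/

set_option autoImplicit false

namespace Pool.Agent.Work.MP_0d53be_an.Full

open scoped Pointwise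
open Filter Topology

/-- The difference of two points of a box. -/
private theorem box_sub {r : ℕ} {z x y : G} (hx : z - x ∈ box r) (hy : z - y ∈ box r) :
    ‖toC (x - y)‖ ≤ 3 / 2 * 2 ^ r := by
  unfold box at hx hy
  rw [Finset.mem_product, Finset.mem_Ico, Finset.mem_Ico] at hx hy
  obtain ⟨⟨h1, h2⟩, h3, h4⟩ := hx
  obtain ⟨⟨h5, h6⟩, h7, h8⟩ := hy
  simp only [Prod.fst_sub, Prod.snd_sub] at h1 h2 h3 h4 h5 h6 h7 h8
  have e1 : |(x - y).1| < (2 : ℤ) ^ r := by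
    rw [Prod.fst_sub, abs_lt]; constructor <;> linarith
  have e2 : |(x - y).2| < (2 : ℤ) ^ r := by
    rw [Prod.snd_sub, abs_lt]; constructor <;> linarith
  have h := norm_toC_lt e1 e2
  push_cast at h
  exact h

/-- A flat approximate group with a vector of moderate size gives a horizontal line. -/
private theorem line_flat {D : Set ℂ} {s Λ : ℕ} {V g R : ℝ} (hD : AppGrp D (3 * 2 ^ s) V)
    (him : ∀ d ∈ D, |d.im| ≤ 2 ^ s) {S : Finset G} {q : ℂ}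
    (hq : ∀ d ∈ D, ∃ z ∈ S, ‖toC z - (q + d)‖ ≤ 3 * 2 ^ s) {u : ℂ} (hu : u ∈ D)
    (hu1 : 24 * 2 ^ s ≤ ‖u‖) (n1 : 2 * V ≤ 2 ^ s * 2 ^ Λ)
    (n2 : 32 * ((1 + 6 * Λ) * 2 ^ s) ≤ V) (n3 : 6 * R + 5 * ‖u‖ ≤ V) (hR : 0 ≤ R)
    (n4 : (4 * Λ + 2) * (3 * 2 ^ s) + ‖u‖ ≤ g) : LineDense S q 1 g R := by
  have h2s : (0 : ℝ) < 2 ^ s := by positivity
  obtain ⟨n, ν, hν1, hν2, hν3, hν4⟩ := line_of hD (by positivity) hu (by linarith) (by linarith)
  have hνu : ‖ν‖ ≤ 9 / 8 * ‖u‖ := by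
    have := norm_sub_norm_le ν u
    linarith
  have hνl : 7 / 8 * ‖u‖ ≤ ‖ν‖ := by
    have := norm_sub_norm_le u ν
    rw [norm_sub_rev] at this
    linarith
  have hνpos : 0 < ‖ν‖ := by linarith
  have hnL : n ≤ Λ := by
    have h5 : (2 : ℝ) ^ n ≤ 2 ^ Λ := by
      have h1 : (2 : ℝ) ^ n * (24 * 2 ^ s) ≤ 2 ^ n * ‖u‖ :=
        mul_le_mul_of_nonneg_left hu1 (by positivity)
      have h2 : (2 : ℝ) ^ n * (24 * 2 ^ s) ≤ 2 ^ s * 2 ^ Λ := by linarith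
      have h3 : (2 : ℝ) ^ s * (24 * 2 ^ n) ≤ 2 ^ s * 2 ^ Λ := by linarith
      have h4 := le_of_mul_le_mul_left h3 h2s
      have h6 : (0 : ℝ) < 2 ^ n := by positivity
      linarith
    exact (pow_le_pow_iff_right₀ (by norm_num)).1 h5
  have hnL' : (n : ℝ) ≤ Λ := by exact_mod_cast hnL
  have hE : 2 * (n : ℝ) * (3 * 2 ^ s) ≤ 6 * Λ * 2 ^ s := by nlinarith
  -- imaginary parts of the multiples
  have him' : ∀ j : ℤ, 4 * (|(j : ℝ)| * ‖ν‖) ≤ V → |(j : ℝ)| * |ν.im| ≤ (1 + 6 * Λ) * 2 ^ s := by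
    intro j hj
    obtain ⟨d, hd, hdj⟩ := hν4 j hj
    have h1 := him d hd
    have h2 := Complex.abs_im_le_norm (d - (j : ℂ) * ν)
    have h3 : (d - (j : ℂ) * ν).im = d.im - j * ν.im := by
      rw [Complex.sub_im]
      congr 1
      rw [Complex.mul_im, Complex.intCast_re, Complex.intCast_im]
      ring
    rw [h3] at h2
    have h4 : |(j : ℝ)| * |ν.im| = |d.im - (d.im - j * ν.im)| := by rw [← abs_mul]; congr 1; ring
    rw [h4]
    exact (abs_sub _ _).trans (by linarith)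
  -- the imaginary part of ν is small
  have hV : 0 < V := by nlinarith
  have him2 : |ν.im| ≤ 1 / 4 * ‖ν‖ := by
    set m : ℤ := ⌊V / (4 * ‖ν‖)⌋ with hm
    have hx : 1 ≤ V / (4 * ‖ν‖) := by
      rw [one_le_div (by positivity)]; linarith
    have hm1 : (1 : ℤ) ≤ m := by
      rw [hm, Int.le_floor]; exact_mod_cast hx
    have hm1' : (1 : ℝ) ≤ m := by exact_mod_cast hm1
    have hm2 : (m : ℝ) ≤ V / (4 * ‖ν‖) := Int.floor_le _
    have hm3 : V / (4 * ‖ν‖) < m + 1 := Int.lt_floor_add_one _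
    have hm4 : (m : ℝ) * (4 * ‖ν‖) ≤ V := by rwa [le_div_iff₀ (by positivity)] at hm2
    have hm5 : V < (m + 1) * (4 * ‖ν‖) := by rwa [div_lt_iff₀ (by positivity)] at hm3
    have hmabs : |(m : ℝ)| = m := abs_of_nonneg (by linarith)
    have h1 := him' m (by rw [hmabs]; linarith)
    rw [hmabs] at h1
    have h2 : V ≤ 8 * (m * ‖ν‖) := by nlinarith
    have h3 : m * |ν.im| ≤ 1 / 4 * (m * ‖ν‖) := by nlinarith
    have h4 : (m : ℝ) * |ν.im| ≤ m * (1 / 4 * ‖ν‖) := by linarith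
    exact le_of_mul_le_mul_left h4 (by linarith)
  have hre : 3 / 4 * ‖ν‖ ≤ |ν.re| := by
    have := Complex.norm_le_abs_re_add_abs_im ν
    linarith
  have hre2 : |ν.re| ≤ ‖ν‖ := Complex.abs_re_le_norm ν
  have hre0 : ν.re ≠ 0 := by
    intro h
    rw [h, abs_zero] at hre
    linarith
  intro a ha
  set j : ℤ := round (a / ν.re) with hj
  have hj1 : |a - j * ν.re| ≤ 1 / 2 * |ν.re| := by
    have h1 := abs_sub_round (a / ν.re)
    have h2 : a - j * ν.re = (a / ν.re - j) * ν.re := by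
      field_simp
    rw [h2, abs_mul]
    exact mul_le_mul_of_nonneg_right h1 (abs_nonneg _)
  have hj2 : |(j : ℝ)| * |ν.re| ≤ |a| + 1 / 2 * |ν.re| := by
    rw [← abs_mul]
    have h2 : (j : ℝ) * ν.re = a - (a - j * ν.re) := by ring
    rw [h2]
    exact (abs_sub _ _).trans (by linarith)
  have hj3 : 4 * (|(j : ℝ)| * ‖ν‖) ≤ V := by
    have h1 : |(j : ℝ)| * (3 / 4 * ‖ν‖) ≤ |(j : ℝ)| * |ν.re| :=
      mul_le_mul_of_nonneg_left hre (abs_nonneg _)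
    linarith
  obtain ⟨d, hd, hdj⟩ := hν4 j hj3
  obtain ⟨z, hz, hzq⟩ := hq d hd
  refine ⟨z, hz, ?_⟩
  have hsplit : toC z - (q + a * 1) =
      (toC z - (q + d)) + ((d - (j : ℂ) * ν) + ((j : ℂ) * ν - a)) := by ring
  have hlast : ‖(j : ℂ) * ν - a‖ ≤ 1 / 2 * ‖ν‖ + (1 + 6 * Λ) * 2 ^ s := by
    refine (Complex.norm_le_abs_re_add_abs_im _).trans ?_
    have e1 : ((j : ℂ) * ν - a).re = j * ν.re - a := by
      rw [Complex.sub_re, Complex.mul_re, Complex.intCast_re, Complex.intCast_im,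
        Complex.ofReal_re]
      ring
    have e2 : ((j : ℂ) * ν - a).im = j * ν.im := by
      rw [Complex.sub_im, Complex.mul_im, Complex.intCast_re, Complex.intCast_im,
        Complex.ofReal_im]
      ring
    rw [e1, e2, abs_mul, abs_sub_comm]
    have := him' j hj3
    linarith
  rw [hsplit]
  have htri := (norm_add_le (toC z - (q + d)) ((d - (j : ℂ) * ν) + ((j : ℂ) * ν - a)))
  have htri2 := norm_add_le (d - (j : ℂ) * ν) ((j : ℂ) * ν - a)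
  nlinarith

private theorem ev1 : ∀ᶠ k : ℕ in atTop, k ^ 20 ≤ 2 ^ Nat.sqrt k := by
  have h1 : ∀ᶠ n : ℕ in atTop, (n + 1) ^ 40 ≤ 2 ^ n := by
    have h := tendsto_pow_const_div_const_pow_of_one_lt 40 (r := (2 : ℝ)) (by norm_num)
    have h' : Tendsto (fun n : ℕ => ((n + 1 : ℕ) : ℝ) ^ 40 / 2 ^ (n + 1)) atTop (𝓝 0) :=
      (tendsto_add_atTop_iff_nat (f := fun n : ℕ => (n : ℝ) ^ 40 / 2 ^ n) 1).2 h
    have h2 := (tendsto_order.1 h').2 (1 / 2) (by norm_num)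
    filter_upwards [h2] with n hn
    rw [div_lt_iff₀ (by positivity), pow_succ (2 : ℝ)] at hn
    have : ((n + 1 : ℕ) : ℝ) ^ 40 < 2 ^ n := by linarith
    exact_mod_cast this.le
  have h2 : Tendsto Nat.sqrt atTop atTop := by
    refine tendsto_atTop.2 fun b => ?_
    filter_upwards [eventually_ge_atTop (b * b)] with n hn
    exact Nat.le_sqrt.2 hn
  filter_upwards [h2.eventually h1] with k hk
  have h3 : k < (Nat.sqrt k + 1) * (Nat.sqrt k + 1) := Nat.lt_succ_sqrt k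
  calc k ^ 20 ≤ ((Nat.sqrt k + 1) * (Nat.sqrt k + 1)) ^ 20 := Nat.pow_le_pow_left h3.le _
    _ = (Nat.sqrt k + 1) ^ 40 := by ring
    _ ≤ _ := hk

private theorem ev2 : ∀ᶠ k : ℕ in atTop, 2240 ≤ Nat.log 2 k := by
  filter_upwards [eventually_ge_atTop (2 ^ 2240)] with k hk
  exact Nat.le_log_of_pow_le (by norm_num) hk

private theorem ev3 : ∀ᶠ k : ℕ in atTop, (k : ℝ) ^ (-(1 / 80 : ℝ)) < 1 / 16 := by
  have h := (tendsto_rpow_neg_atTop (y := (1 / 80 : ℝ)) (by norm_num)).comp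
    (tendsto_natCast_atTop_atTop (R := ℝ))
  exact (tendsto_order.1 h).2 _ (by norm_num)

private theorem ev6 : ∀ᶠ k : ℕ in atTop,
    2 ^ 20 * (k : ℝ) ^ (-(1 / 160 : ℝ)) ≤ (k : ℝ) ^ (-(1 / 170 : ℝ)) := by
  have h := (tendsto_rpow_atTop (y := (1 / 2720 : ℝ)) (by norm_num)).comp
    (tendsto_natCast_atTop_atTop (R := ℝ))
  filter_upwards [h.eventually (eventually_ge_atTop ((2 : ℝ) ^ 20)), eventually_gt_atTop 0]
    with k hk hk0
  have hk0' : (0 : ℝ) < k := by exact_mod_cast hk0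
  have e : (k : ℝ) ^ (-(1 / 170 : ℝ)) = (k : ℝ) ^ (1 / 2720 : ℝ) * (k : ℝ) ^ (-(1 / 160 : ℝ)) := by
    rw [← Real.rpow_add hk0']; congr 1; norm_num
  rw [e]
  exact mul_le_mul_of_nonneg_right hk (by positivity)

private theorem ev5 : ∀ᶠ k : ℕ in atTop,
    80 * Real.log k ≤ 1 / 2 * (Nat.sqrt k * (k : ℝ) ^ (-(1 / 170 : ℝ))) := by
  have h := (isLittleO_log_rpow_atTop (r := (1 / 4 : ℝ)) (by norm_num)).bound
    (c := 1 / 320) (by norm_num)
  have h' := (tendsto_natCast_atTop_atTop (R := ℝ)).eventually h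
  filter_upwards [h', eventually_ge_atTop 1] with k hk hk1
  have hk1' : (1 : ℝ) ≤ k := by exact_mod_cast hk1
  have hk0' : (0 : ℝ) < k := by linarith
  rw [Real.norm_of_nonneg (Real.log_nonneg hk1'), Real.norm_of_nonneg (by positivity)] at hk
  have h3 : (k : ℝ) ^ (1 / 2 : ℝ) ≤ 2 * Nat.sqrt k := by
    rw [← Real.sqrt_eq_rpow]
    have h4 : k < (Nat.sqrt k + 1) * (Nat.sqrt k + 1) := Nat.lt_succ_sqrt k
    have h4' : (k : ℝ) < (Nat.sqrt k + 1) * (Nat.sqrt k + 1) := by exact_mod_cast h4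
    have h5 : Real.sqrt k ≤ Nat.sqrt k + 1 := by
      rw [Real.sqrt_le_left (by positivity)]
      nlinarith
    have h6 : 1 ≤ Nat.sqrt k := Nat.le_sqrt.2 (by simpa using hk1)
    have h6' : (1 : ℝ) ≤ Nat.sqrt k := by exact_mod_cast h6
    linarith
  have h7 : (k : ℝ) ^ (1 / 4 : ℝ) ≤ (k : ℝ) ^ (1 / 2 : ℝ) * (k : ℝ) ^ (-(1 / 170 : ℝ)) := by
    rw [← Real.rpow_add hk0']
    exact Real.rpow_le_rpow_of_exponent_le hk1' (by norm_num)
  have h8 : (k : ℝ) ^ (1 / 2 : ℝ) * (k : ℝ) ^ (-(1 / 170 : ℝ)) ≤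
      2 * Nat.sqrt k * (k : ℝ) ^ (-(1 / 170 : ℝ)) :=
    mul_le_mul_of_nonneg_right h3 (by positivity)
  linarith

/-- Roots. -/
private theorem le_root {x y : ℝ} (hx : 0 ≤ x) (h : x ^ 160 ≤ y) : x ≤ y ^ (1 / 160 : ℝ) := by
  have e : (x ^ 160) ^ (1 / 160 : ℝ) = x := by
    rw [show (1 / 160 : ℝ) = ((160 : ℕ) : ℝ)⁻¹ by norm_num]
    exact Real.pow_rpow_inv_natCast hx (n := 160) (by norm_num)
  rw [← e]
  exact Real.rpow_le_rpow (by positivity) h (by norm_num)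

private theorem root_le {x y : ℝ} (hx : 0 ≤ x) (hy : 0 ≤ y) (h : y ≤ x ^ 160) :
    y ^ (1 / 160 : ℝ) ≤ x := by
  have e : (x ^ 160) ^ (1 / 160 : ℝ) = x := by
    rw [show (1 / 160 : ℝ) = ((160 : ℕ) : ℝ)⁻¹ by norm_num]
    exact Real.pow_rpow_inv_natCast hx (n := 160) (by norm_num)
  rw [← e]
  exact Real.rpow_le_rpow hy h (by norm_num)

theorem runB : ∃ k₀ : ℕ, ∀ k : ℕ, k₀ ≤ k → ∀ (A : Finset G) (p : G → ℝ), Prb A p → ∀ s : ℕ,
    (∀ x ∈ A, ∀ y ∈ A, |x.2 - y.2| ≤ 2 ^ s) →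
    drop A p s (s + Nat.sqrt k) ≤ (k : ℝ) ^ (-(1 / 5 : ℝ)) →
    (∀ q : ℂ, ¬ LineDense (A + A) q 1 (2 ^ (s + Nat.sqrt k) / (k : ℝ) ^ 11)
      (2 ^ (s + Nat.sqrt k) / k)) →
    hh p s - hh p (s + Nat.sqrt k) ≤ Nat.sqrt k * (k : ℝ) ^ (-(1 / 170 : ℝ)) := by
  have hev := (ev1.and (ev2.and (ev3.and (ev5.and ev6))))
  obtain ⟨k₀, hk₀⟩ := eventually_atTop.1 hev
  refine ⟨k₀, ?_⟩
  intro k hk A p hp s hflat hdrop hline
  obtain ⟨h20, hL, hη16, h5, h6⟩ := hk₀ k hk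
  clear hk₀ hev hk
  set Λ : ℕ := Nat.sqrt k with hΛ
  set t : ℕ := s + Λ with ht
  set L : ℕ := Nat.log 2 k with hLdef
  set K : ℝ := (k : ℝ) with hK
  have hk0 : k ≠ 0 := by
    intro h
    rw [h] at hLdef
    simp at hLdef
    omega
  have hLk : 2 ^ L ≤ k := Nat.pow_log_le_self 2 hk0
  have hLk' : k < 2 ^ (L + 1) := Nat.lt_pow_succ_log_self (by norm_num) k
  have hLK : (2 : ℝ) ^ L ≤ K := by rw [hK]; exact_mod_cast hLk
  have hLK' : K ≤ (2 : ℝ) ^ (L + 1) := by rw [hK]; exact_mod_cast hLk'.le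
  have hK16 : (16 : ℝ) ≤ K := by
    refine le_trans ?_ hLK
    calc (16 : ℝ) = 2 ^ 4 := by norm_num
      _ ≤ 2 ^ L := pow_le_pow_right₀ (by norm_num) (by omega)
  have hK0 : 0 < K := by linarith
  have hK1 : 1 ≤ K := by linarith
  set c : ℕ := L / 160 - 10 with hc
  have hc4 : 4 ≤ c := by omega
  have hc1 : (c + 10) * 160 ≤ L := by omega
  have hc2 : L + 1 ≤ (c + 11) * 160 := by omega
  set y : ℝ := K ^ (1 / 160 : ℝ) with hy
  have hy1 : (2 : ℝ) ^ (c + 10) ≤ y := by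
    refine le_root (by positivity) ?_
    rw [← pow_mul]
    exact (pow_le_pow_right₀ (by norm_num) hc1).trans hLK
  have hy2 : y ≤ (2 : ℝ) ^ (c + 11) := by
    refine root_le (by positivity) hK0.le ?_
    rw [← pow_mul]
    exact hLK'.trans (pow_le_pow_right₀ (by norm_num) hc2)
  have hypos : 0 < y := by positivity
  have hy1' : 1 ≤ y := le_trans (one_le_pow₀ (by norm_num)) hy1
  set η : ℝ := K ^ (-(1 / 80 : ℝ)) with hη
  have hη0 : 0 < η := by positivity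
  have hηy : η * y ^ 2 = 1 := by
    rw [hη, hy, ← Real.rpow_natCast (K ^ (1 / 160 : ℝ)) 2, ← Real.rpow_mul hK0.le,
      ← Real.rpow_add hK0]
    norm_num
  have hη16' : η ^ 16 = K ^ (-(1 / 5 : ℝ)) := by
    rw [hη, ← Real.rpow_natCast (K ^ (-(1 / 80 : ℝ))) 16, ← Real.rpow_mul hK0.le]
    norm_num
  have hinvy : K ^ (-(1 / 160 : ℝ)) = 1 / y := by
    rw [hy, Real.rpow_neg hK0.le]
    exact (one_div _).symm
  rw [hinvy] at h6
  have hηle : η ≤ 1 / y := by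
    rw [le_div_iff₀ hypos, ← hηy]
    exact mul_le_mul_of_nonneg_left (le_self_pow₀ hy1' (by norm_num)) hη0.le
  have hη1 : η < 1 := by linarith
  set e : ℕ := 11 * (L + 1) + 11 with he
  -- powers of two
  have hpc : (2 : ℝ) ^ c * 2 ^ 10 ≤ y := by rw [← pow_add]; exact hy1
  have hpc' : y ≤ (2 : ℝ) ^ c * 2 ^ 11 := by rw [← pow_add]; exact hy2
  have h2c : (2 : ℝ) ^ c * 2 ^ 10 ≤ K := by
    rw [← pow_add]
    exact (pow_le_pow_right₀ (by norm_num) (by omega)).trans hLK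
  have he1 : 2 ^ 11 * K ^ 11 ≤ (2 : ℝ) ^ e := by
    rw [he, pow_add, pow_mul', mul_comm]
    exact mul_le_mul_of_nonneg_right (pow_le_pow_left₀ hK0.le hLK' 11) (by positivity)
  have he2 : (2 : ℝ) ^ e ≤ 2 ^ 22 * K ^ 11 := by
    have : (2 : ℝ) ^ e = 2 ^ 22 * (2 ^ L) ^ 11 := by
      rw [← pow_mul, ← pow_add]; congr 1; omega
    rw [this]
    exact mul_le_mul_of_nonneg_left (pow_le_pow_left₀ (by positivity) hLK 11) (by positivity)
  have h20' : K ^ 20 ≤ (2 : ℝ) ^ Λ := by rw [hK]; exact_mod_cast h20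
  have hK8 : (2 : ℝ) ^ 32 ≤ K ^ 8 := by
    calc (2 : ℝ) ^ 32 = 16 ^ 8 := by norm_num
      _ ≤ K ^ 8 := pow_le_pow_left₀ (by norm_num) hK16 8
  have hce : c + e + 4 ≤ Λ := by
    have h1 : (2 : ℝ) ^ (c + e + 4) ≤ 2 ^ Λ := by
      have h2 : (2 : ℝ) ^ (c + e + 4) = (2 ^ c * 2 ^ 10) * 2 ^ e * (1 / 2 ^ 6) := by
        rw [pow_add, pow_add]; norm_num; ring
      rw [h2]
      have h3 : (2 ^ c * 2 ^ 10) * (2 : ℝ) ^ e ≤ K * (2 ^ 22 * K ^ 11) :=
        mul_le_mul h2c he2 (by positivity) (by positivity)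
      have h4 : K * (2 ^ 22 * K ^ 11) ≤ K ^ 20 := by
        have : K ^ 20 = K ^ 12 * K ^ 8 := by ring
        rw [this]
        have : K * (2 ^ 22 * K ^ 11) = K ^ 12 * 2 ^ 22 := by ring
        rw [this]
        refine mul_le_mul_of_nonneg_left ?_ (by positivity)
        exact le_trans (by norm_num) hK8
      have h5 : (0 : ℝ) ≤ (2 ^ c * 2 ^ 10) * 2 ^ e := by positivity
      have h6 : (1 : ℝ) / 2 ^ 6 ≤ 1 := by norm_num
      have h7 := mul_le_mul_of_nonneg_left h6 h5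
      rw [mul_one] at h7
      exact h7.trans (h3.trans (h4.trans h20'))
    exact (pow_le_pow_iff_right₀ (by norm_num)).1 h1
  set v : ℕ := t - c with hv
  set r : ℕ := v - e with hr
  have hvt : t - v = c := by omega
  have hvp : (2 : ℝ) ^ v * 2 ^ c = 2 ^ t := by rw [← pow_add]; congr 1; omega
  have hrp : (2 : ℝ) ^ r * 2 ^ e = 2 ^ v := by rw [← pow_add]; congr 1; omega
  have htp : (2 : ℝ) ^ t = 2 ^ s * 2 ^ Λ := by rw [ht, pow_add]
  have hs0 : (0 : ℝ) < 2 ^ s := by positivity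
  have hr0 : (0 : ℝ) < 2 ^ r := by positivity
  have hv0 : (0 : ℝ) < 2 ^ v := by positivity
  have hc0 : (0 : ℝ) < 2 ^ c := by positivity
  have hc0' : (16 : ℝ) ≤ 2 ^ c := by
    calc (16 : ℝ) = 2 ^ 4 := by norm_num
      _ ≤ 2 ^ c := pow_le_pow_right₀ (by norm_num) hc4
  have hΛk : (Λ : ℝ) ≤ K := by
    have : Λ ≤ k := Nat.sqrt_le_self k
    rw [hK]; exact_mod_cast this
  have hsm : η * 2 ^ (2 * (t - v) + 11) ≤ 1 := by
    rw [hvt, pow_add, pow_mul']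
    have h1 : ((2 : ℝ) ^ c * 2 ^ 10) ^ 2 ≤ y ^ 2 := pow_le_pow_left₀ (by positivity) hpc 2
    have h2 : η * ((2 : ℝ) ^ c * 2 ^ 10) ^ 2 ≤ η * y ^ 2 := mul_le_mul_of_nonneg_left h1 hη0.le
    rw [hηy] at h2
    have h3 : (0 : ℝ) ≤ η * (2 ^ c) ^ 2 := by positivity
    have h4 : η * ((2 : ℝ) ^ c * 2 ^ 10) ^ 2 = η * (2 ^ c) ^ 2 * 2 ^ 20 := by ring
    rw [h4] at h2
    rw [← mul_assoc]
    refine le_trans (mul_le_mul_of_nonneg_left ?_ h3) h2
    norm_num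
  -- the key claim
  have key : ∀ w w' : G, GoodPair A p s t v η w w' → ∀ u ∈ DC A p s t v η w w',
      100 * K ^ 11 * ‖u‖ ≤ 2 ^ v / 8 → ‖u‖ ≤ 24 * 2 ^ s := by
    intro w w' hg u hu huV
    by_contra hcon
    rw [not_le] at hcon
    have hD := app_grp hp (s := s) (t := t) (v := v) (by omega) (by omega) (by omega) hη0
      (by linarith) hg
    obtain ⟨q, hq⟩ := coverage hp (s := s) (t := t) (v := v) (by omega) (by omega) hη0 hsm hg
    refine hline q (line_flat (Λ := Λ) hD ?_ hq hu hcon.le ?_ ?_ ?_ (by positivity) ?_)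
    · rintro d ⟨x, hx, y', hy', rfl, _⟩
      classical
      have hxA : x ∈ A := (Finset.mem_filter.1 hx).2.1
      have hyA : y' ∈ A := (Finset.mem_filter.1 hy').2.1
      have := hflat x hxA y' hyA
      change |((x - y').2 : ℝ)| ≤ 2 ^ s
      rw [Prod.snd_sub]
      exact_mod_cast this
    · -- 2 V ≤ 2^s 2^Λ
      rw [← htp, ← hvp]
      have := mul_le_mul_of_nonneg_left hc0' hv0.le
      linarith
    · -- 32 (1 + 6 Λ) 2^s ≤ V
      have h1 : (2 : ℝ) ^ v * 2 ^ c = 2 ^ s * 2 ^ Λ := by rw [hvp, htp]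
      have h2 : 256 * (1 + 6 * (Λ : ℝ)) * 2 ^ c ≤ 2 ^ Λ := by
        refine le_trans ?_ h20'
        have h3 : 1 + 6 * (Λ : ℝ) ≤ 7 * K := by linarith
        have h4 : (2 : ℝ) ^ c ≤ K := by linarith
        have h5 : (1 + 6 * (Λ : ℝ)) * 2 ^ c ≤ 7 * K * K :=
          mul_le_mul h3 h4 (by positivity) (by positivity)
        have h6 : K ^ 20 = K ^ 12 * K ^ 8 := by ring
        have h7 : K ^ 2 ≤ K ^ 12 := pow_le_pow_right₀ hK1 (by norm_num)
        have h8 : K ^ 2 * 2 ^ 32 ≤ K ^ 12 * K ^ 8 :=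
          mul_le_mul h7 hK8 (by positivity) (by positivity)
        rw [h6]
        linarith [sq_nonneg K]
      have h3 : 256 * ((1 + 6 * (Λ : ℝ)) * 2 ^ s) * 2 ^ c ≤ 2 ^ v * 2 ^ c := by
        rw [h1]
        have := mul_le_mul_of_nonneg_left h2 hs0.le
        linarith
      have h4 := le_of_mul_le_mul_right h3 hc0
      linarith
    · -- 6 R + 5 |u| ≤ V
      have h1 : 6 * (2 ^ t / K) ≤ 1 / 2 * (2 ^ v / 8) := by
        rw [← hvp, mul_div_assoc', div_le_iff₀ hK0]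
        have h3 := mul_le_mul_of_nonneg_left h2c hv0.le
        linarith [mul_pos hv0 hc0]
      have h2 : 5 * ‖u‖ ≤ 1 / 2 * (2 ^ v / 8) := by
        have h3 : (1 : ℝ) ≤ K ^ 11 := one_le_pow₀ hK1
        have h4 : ‖u‖ * 1 ≤ ‖u‖ * K ^ 11 := mul_le_mul_of_nonneg_left h3 (norm_nonneg u)
        linarith [norm_nonneg u]
      linarith
    · -- (4 Λ + 2) 3 2^s + |u| ≤ 2^t / K^11
      have hK11 : (0 : ℝ) < K ^ 11 := by positivity
      have h1 : ‖u‖ ≤ 1 / 2 * (2 ^ t / K ^ 11) := by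
        rw [mul_div_assoc', le_div_iff₀ hK11, ← hvp]
        have h3 := mul_le_mul_of_nonneg_left hc0' hv0.le
        linarith
      have h2 : (4 * (Λ : ℝ) + 2) * (3 * 2 ^ s) ≤ 1 / 2 * (2 ^ t / K ^ 11) := by
        rw [mul_div_assoc', le_div_iff₀ hK11, htp]
        have h3 : (4 * (Λ : ℝ) + 2) ≤ 6 * K := by linarith
        have h4 : (4 * (Λ : ℝ) + 2) * K ^ 11 ≤ 6 * K * K ^ 11 :=
          mul_le_mul_of_nonneg_right h3 hK11.le
        have h5 : 36 * K ^ 12 ≤ K ^ 20 := by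
          have h6 : K ^ 20 = K ^ 12 * K ^ 8 := by ring
          rw [h6, mul_comm]
          refine mul_le_mul_of_nonneg_left ?_ (by positivity)
          exact le_trans (by norm_num) hK8
        have h7 : 6 * ((4 * (Λ : ℝ) + 2) * K ^ 11) ≤ 2 ^ Λ := by
          refine le_trans ?_ h20'
          refine le_trans ?_ h5
          have : 6 * K * K ^ 11 = 6 * K ^ 12 := by ring
          linarith
        have h8 := mul_le_mul_of_nonneg_left h7 hs0.le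
        linarith
      linarith
  have hcell : ∀ w w', GoodPair A p s t v η w w' → ∀ z, (∀ b ∈ box r, z - b ∈ hull v t w') →
      ((cellsMeeting s r z (Gs A p s t v η w w')).card : ℝ) ≤ 729 := by
    intro w w' hg z _
    have h := cells_point (s := s) (r := r) (by omega) (z := z)
      (T := Gs A p s t v η w w') (ρ := 24 * 2 ^ s) (by positivity) (by
        intro x hx y' hy' hzx hzy
        have hb := box_sub hzx hzy
        have h3 : (1 : ℝ) ≤ K ^ 11 := one_le_pow₀ hK1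
        have h4 : 100 * K ^ 11 * ‖toC (x - y')‖ ≤ 2 ^ v / 8 := by
          have h5 : 100 * K ^ 11 * ‖toC (x - y')‖ ≤ 100 * K ^ 11 * (3 / 2 * 2 ^ r) :=
            mul_le_mul_of_nonneg_left hb (by positivity)
          have h6 : 2 ^ 11 * K ^ 11 * 2 ^ r ≤ (2 : ℝ) ^ e * 2 ^ r :=
            mul_le_mul_of_nonneg_right he1 hr0.le
          have h7 : (0 : ℝ) ≤ K ^ 11 * 2 ^ r := by positivity
          rw [mul_comm ((2 : ℝ) ^ e), hrp] at h6
          linarith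
        have hmem : toC (x - y') ∈ DC A p s t v η w w' := by
          refine ⟨x, hx, y', hy', rfl, ?_⟩
          have h5 : ‖toC (x - y')‖ * 1 ≤ ‖toC (x - y')‖ * K ^ 11 :=
            mul_le_mul_of_nonneg_left h3 (norm_nonneg _)
          linarith [norm_nonneg (toC (x - y'))]
        exact key w w' hg _ hmem h4)
    have e : (24 * 2 ^ s / 2 ^ s + 3 : ℝ) ^ 2 = 729 := by
      rw [mul_div_assoc, div_self hs0.ne']; norm_num
    rw [e] at h
    exact h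
  have hb := ent_bound hp (s := s) (r := r) (v := v) (t := t) (by omega) (by omega) (by omega)
    hη0 (by rw [hη16']; exact hdrop) (N := 729) (by norm_num) hcell
  have hb2 := hh_diff_le hp (s := r) (t := t) (by omega)
  rw [hvt] at hb
  have hlog2 : 0 < Real.log 2 := Real.log_pos (by norm_num)
  have hlog2' : Real.log 2 < 1 := by
    have := Real.log_two_lt_d9; linarith
  have hlogN : Real.log 729 + Real.log 2 ≤ 11 * Real.log 2 := by
    have e1 : Real.log 729 ≤ 10 * Real.log 2 := by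
      have : Real.log 729 ≤ Real.log (2 ^ 10) := Real.log_le_log (by norm_num) (by norm_num)
      rw [Real.log_pow] at this
      push_cast at this
      exact this
    linarith
  -- log k
  have hlogK : (L : ℝ) * Real.log 2 ≤ Real.log K := by
    rw [← Real.log_pow]
    exact Real.log_le_log (by positivity) hLK
  have htr : ((t - r : ℕ) : ℝ) ≤ 12 * L + 22 := by
    have : t - r ≤ 12 * L + 22 := by omega
    exact_mod_cast this
  have hL2240 : (2240 : ℝ) ≤ L := by exact_mod_cast hL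
  have part1 : Real.log 729 + Real.log 2 + 2 * ((t - r : ℕ) : ℝ) * Real.log 2 ≤ 80 * Real.log K := by
    have h1 : 2 * ((t - r : ℕ) : ℝ) * Real.log 2 ≤ 2 * (12 * L + 22) * Real.log 2 := by
      refine mul_le_mul_of_nonneg_right ?_ hlog2.le
      linarith
    have h2 : 2240 * Real.log 2 ≤ L * Real.log 2 := mul_le_mul_of_nonneg_right hL2240 hlog2.le
    linarith
  have hrs : ((r - s : ℕ) : ℝ) ≤ Λ := by
    have : r - s ≤ Λ := by omega
    exact_mod_cast this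
  have hcoef : 4 * η ^ 2 + 48 * η ^ 4 + 64 / 2 ^ c ≤ 2 ^ 18 * (1 / y) := by
    have h1 : η ^ 2 ≤ 1 / y := (pow_le_of_le_one hη0.le hη1.le (by norm_num)).trans hηle
    have h2 : η ^ 4 ≤ 1 / y := (pow_le_of_le_one hη0.le hη1.le (by norm_num)).trans hηle
    have h3 : 64 / (2 : ℝ) ^ c ≤ 2 ^ 17 * (1 / y) := by
      have h4 : 1 ≤ 1 / y * (2 ^ c * 2 ^ 11) := by
        rw [one_div, ← div_eq_inv_mul, le_div_iff₀ hypos]
        linarith
      rw [div_le_iff₀ hc0]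
      linarith
    have h4 : 0 < 1 / y := by positivity
    linarith
  have part2 : (4 * η ^ 2 + 48 * η ^ 4 + 64 / 2 ^ c) * (2 * ((r - s : ℕ) : ℝ) * Real.log 2) ≤
      1 / 2 * (Λ * K ^ (-(1 / 170 : ℝ))) := by
    have h1 : 2 * ((r - s : ℕ) : ℝ) * Real.log 2 ≤ 2 * Λ := by
      have h2 : 2 * ((r - s : ℕ) : ℝ) * Real.log 2 ≤ 2 * ((r - s : ℕ) : ℝ) * 1 :=
        mul_le_mul_of_nonneg_left hlog2'.le (by positivity)
      linarith
    have h2 : (4 * η ^ 2 + 48 * η ^ 4 + 64 / 2 ^ c) * (2 * ((r - s : ℕ) : ℝ) * Real.log 2) ≤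
        2 ^ 18 * (1 / y) * (2 * Λ) := mul_le_mul hcoef h1 (by positivity) (by positivity)
    have h3 : (Λ : ℝ) * (2 ^ 20 * (1 / y)) ≤ Λ * K ^ (-(1 / 170 : ℝ)) :=
      mul_le_mul_of_nonneg_left h6 (by positivity)
    linarith
  have : hh p s - hh p t = (hh p s - hh p r) + (hh p r - hh p t) := by ring
  rw [this]
  linarith

end Pool.Agent.Work.MP_0d53be_an.Full
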