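import Pool.Agent.Work.MP_0d53be_an.Full.F.Cov
import Pool.Agent.Work.MP_0d53be_an.Full.G.Cells
import Pool.Agent.Work.MP_0d53be_an.Full.G.Line

/-!
# H/RunC: a long range with small drop and some entropy at its bottom carries a long line

There are `η₁ > 0` and `C : ℕ` such that: if `s + ℓ + C ≤ t`, `C (log₂ t + 1) ≤ ℓ`,
`drop A p s t ≤ η₁` and `hh p s - hh p (s + ℓ) ≥ (ℓ/2) log 2`, then for some `q` and some unit
vector `β` the sum set `A + A` is `LineDense` at `q` in the direction `β` with mesh `2^(s+ℓ+2)` and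
length `2^t/2^20`.

Proof. `C = 40`, `η = 2^(-40)`, `η₁ = η^16`, `v = t - 12`, `r = s + ℓ`, `τ = 3 * 2^s`, `V = 2^v/8`.
`η 2^(2*12+11) ≤ 1`, `η < 1/16`, `r + 4 ≤ v`.
(1) There are a good pair `(w, w')` and `u ∈ D = DC A p s t v η w w'` with `24 * 2^s ≤ ‖u‖` and
`‖u‖ ≤ √2 2^r`. Otherwise for all good pairs, all `z` and `x, y ∈ Gs` with
`z - x, z - y ∈ box r`: `‖toC (x-y)‖ ≤ √2 2^r`, `8 √2 2^r ≤ 2^v`, so `toC (x-y) ∈ D` and
`‖toC (x - y)‖ ≤ 24 * 2^s`; by `cells_point` at most `27² = 729` cells, and `ent_bound` gives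
`hh p s - hh p r ≤ log 729 + log 2 + (4 η² + 48 η^4 + 64/4096) 2 ℓ log 2 ≤ 8 + (ℓ/25) log 2
< (ℓ/2) log 2` since `ℓ ≥ 40`: contradiction.
(2) `line_of` for `u` (`8 τ = 24 * 2^s ≤ ‖u‖`; `4 ‖u‖ ≤ 4 √2 2^r ≤ V = 2^(t-15)` because
`r + 40 ≤ t`) gives `n, ν`; `‖ν‖ ≤ √2 2^r + τ ≤ 2^(r+1)`; `2^n * 24 * 2^s ≤ 2 V ≤ 2^t`, so `n ≤ t`.
`ν ≠ 0`; `β = ν/‖ν‖`. `q` from `coverage`. Let `|a| ≤ 2^t/2^20`, `j = round (a/‖ν‖)`:
`|a - j‖ν‖| ≤ ‖ν‖/2`, `4 |j| ‖ν‖ ≤ 2^(t-18) + 4 ‖ν‖ ≤ 2^(t-18) + 2^(r+3) ≤ V`. There are `d ∈ D` with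
`‖d - jν‖ ≤ 2 n τ` and `z ∈ A + A` with `‖toC z - (q+d)‖ ≤ τ`. So
`‖toC z - (q + a β)‖ ≤ τ + 2 n τ + ‖ν‖/2 ≤ (6 t + 3) 2^s + 2^r ≤ 2^(s+ℓ+2)`, as
`6 t + 3 ≤ 2^ℓ` (`2^ℓ ≥ 2^(40 (log₂ t + 1)) ≥ t^40 2^..`; `2^(Nat.log 2 t + 1) > t`).
-/

set_option autoImplicit false

namespace Pool.Agent.Work.MP_0d53be_an.Full

open scoped Pointwise

/-- The difference of two points of a box. -/
private theorem box_sub {r : ℕ} {z x y : G} (hx : z - x ∈ box r) (hy : z - y ∈ box r) :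
    ‖toC (x - y)‖ ≤ 3 / 2 * 2 ^ r := by
  unfold box at hx hy
  rw [Finset.mem_product, Finset.mem_Ico, Finset.mem_Ico] at hx hy
  obtain ⟨⟨h1, h2⟩, h3, h4⟩ := hx
  obtain ⟨⟨h5, h6⟩, h7, h8⟩ := hy
  simp only [Prod.fst_sub, Prod.snd_sub] at h1 h2 h3 h4 h5 h6 h7 h8
  have e1 : |(x - y).1| < (2 : ℤ) ^ r := by
    rw [Prod.fst_sub, abs_lt]; constructor <;> linarith
  have e2 : |(x - y).2| < (2 : ℤ) ^ r := by
    rw [Prod.snd_sub, abs_lt]; constructor <;> linarith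
  have h := norm_toC_lt e1 e2
  push_cast at h
  exact h

theorem runC : ∃ η₁ : ℝ, 0 < η₁ ∧ ∃ C : ℕ, ∀ (A : Finset G) (p : G → ℝ), Prb A p →
    ∀ s ℓ t : ℕ, s + ℓ + C ≤ t → C * (Nat.log 2 t + 1) ≤ ℓ → drop A p s t ≤ η₁ →
    (ℓ : ℝ) / 2 * Real.log 2 ≤ hh p s - hh p (s + ℓ) →
    ∃ q β : ℂ, ‖β‖ = 1 ∧ LineDense (A + A) q β (2 ^ (s + ℓ + 2)) (2 ^ t / 2 ^ 20) := by
  refine ⟨((2 : ℝ)⁻¹ ^ 40) ^ 16, by positivity, 40, ?_⟩
  intro A p hp s ℓ t hst hlog hdrop hent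
  set η : ℝ := (2 : ℝ)⁻¹ ^ 40 with hη
  have hη0 : 0 < η := by positivity
  have hη16 : η < 1 / 16 := by rw [hη]; norm_num
  set v : ℕ := t - 12 with hv
  set r : ℕ := s + ℓ with hr
  have hl40 : 40 ≤ ℓ := by
    have : 1 ≤ Nat.log 2 t + 1 := by omega
    nlinarith
  have hlog2 : 0 < Real.log 2 := Real.log_pos (by norm_num)
  have hvt : t - v = 12 := by omega
  have h2s : (0 : ℝ) < 2 ^ s := by positivity
  have h2r : (0 : ℝ) < 2 ^ r := by positivity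
  -- powers
  have p1 : (2 : ℝ) ^ r * 2 ^ 28 ≤ 2 ^ v := by
    rw [← pow_add]; exact pow_le_pow_right₀ (by norm_num) (by omega)
  have p2 : (2 : ℝ) ^ v * 2 ^ 12 = 2 ^ t := by
    rw [← pow_add]; congr 1; omega
  have p3 : (2 : ℝ) ^ r = 2 ^ s * 2 ^ ℓ := by rw [hr, pow_add]
  have p4 : (2 : ℝ) ^ 40 ≤ 2 ^ ℓ := pow_le_pow_right₀ (by norm_num) hl40
  -- step 1
  have step1 : ∃ w w' : G, GoodPair A p s t v η w w' ∧ ∃ u ∈ DC A p s t v η w w',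
      24 * 2 ^ s ≤ ‖u‖ ∧ ‖u‖ ≤ 3 / 2 * 2 ^ r := by
    by_contra hcon
    push Not at hcon
    have hcell : ∀ w w', GoodPair A p s t v η w w' → ∀ z, (∀ b ∈ box r, z - b ∈ hull v t w') →
        ((cellsMeeting s r z (Gs A p s t v η w w')).card : ℝ) ≤ 729 := by
      intro w w' hg z _
      have h := cells_point (s := s) (r := r) (by omega) (z := z)
        (T := Gs A p s t v η w w') (ρ := 24 * 2 ^ s) (by positivity) (by
          intro x hx y hy hzx hzy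
          have hb := box_sub hzx hzy
          by_contra hlt
          rw [not_le] at hlt
          have hmem : toC (x - y) ∈ DC A p s t v η w w' := by
            refine ⟨x, hx, y, hy, rfl, ?_⟩
            nlinarith
          exact absurd hb (not_le.2 (hcon w w' hg _ hmem hlt.le)))
      have e : (24 * 2 ^ s / 2 ^ s + 3 : ℝ) ^ 2 = 729 := by
        rw [mul_div_assoc, div_self h2s.ne']; norm_num
      rw [e] at h
      exact h
    have hb := ent_bound hp (s := s) (r := r) (v := v) (t := t) (by omega) (by omega) (by omega)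
      hη0 hdrop (N := 729) (by norm_num) hcell
    rw [hvt] at hb
    have hrs : r - s = ℓ := by omega
    rw [hrs] at hb
    have hlogN : Real.log 729 + Real.log 2 ≤ 11 * Real.log 2 := by
      have e1 : Real.log 729 ≤ 10 * Real.log 2 := by
        have : Real.log 729 ≤ Real.log (2 ^ 10) := Real.log_le_log (by norm_num) (by norm_num)
        rw [Real.log_pow] at this
        push_cast at this
        exact this
      linarith
    have hη' : 4 * η ^ 2 + 48 * η ^ 4 + 64 / 2 ^ 12 ≤ 1 / 32 := by rw [hη]; norm_num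
    have hl : (40 : ℝ) ≤ ℓ := by exact_mod_cast hl40
    have hm : (4 * η ^ 2 + 48 * η ^ 4 + 64 / 2 ^ 12) * (2 * (ℓ : ℝ) * Real.log 2) ≤
        1 / 32 * (2 * (ℓ : ℝ) * Real.log 2) := mul_le_mul_of_nonneg_right hη' (by positivity)
    have : (ℓ : ℝ) / 2 * Real.log 2 ≤ 11 * Real.log 2 + 1 / 32 * (2 * (ℓ : ℝ) * Real.log 2) := by
      linarith
    nlinarith
  obtain ⟨w, w', hg, u, hu, hu1, hu2⟩ := step1
  have hD := app_grp hp (s := s) (t := t) (v := v) (by omega) (by omega) (by omega) hη0 hη16 hg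
  obtain ⟨n, ν, hν1, hν2, hν3, hν4⟩ := line_of hD (by positivity) hu (by linarith) (by nlinarith)
  obtain ⟨q, hq⟩ := coverage hp (s := s) (t := t) (v := v) (by omega) (by omega) hη0
    (by rw [hvt, hη]; norm_num) hg
  have hνu : ‖ν‖ ≤ ‖u‖ + 3 * 2 ^ s := by
    have := norm_sub_norm_le ν u
    linarith
  have hνl : ‖u‖ - 3 * 2 ^ s ≤ ‖ν‖ := by
    have := norm_sub_norm_le u ν
    rw [norm_sub_rev] at this
    linarith
  have hνpos : 0 < ‖ν‖ := by linarith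
  have h3 : 3 * (2 : ℝ) ^ s ≤ 1 / 2 * 2 ^ r := by
    rw [p3]
    nlinarith
  have hνr : ‖ν‖ ≤ 2 * 2 ^ r := by linarith
  have hnt : n ≤ t := by
    have h5 : (2 : ℝ) ^ n ≤ 2 ^ t := by
      have h1s : (1 : ℝ) ≤ 2 ^ s := one_le_pow₀ (by norm_num)
      have : (2 : ℝ) ^ n * 1 ≤ 2 ^ n * ‖u‖ :=
        mul_le_mul_of_nonneg_left (by linarith) (by positivity)
      nlinarith
    exact (pow_le_pow_iff_right₀ (by norm_num)).1 h5
  have h6t : 6 * (t : ℝ) + 3 ≤ 3 * 2 ^ ℓ := by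
    have h7 : t < 2 ^ (Nat.log 2 t + 1) := Nat.lt_pow_succ_log_self (by norm_num) t
    have h8 : 2 ^ (Nat.log 2 t + 1) * 2 ^ 2 ≤ 2 ^ ℓ := by
      rw [← pow_add]
      refine Nat.pow_le_pow_right (by norm_num) ?_
      have : 0 ≤ Nat.log 2 t := Nat.zero_le _
      omega
    have h9 : 6 * t + 3 ≤ 3 * 2 ^ ℓ := by
      have : 1 ≤ 2 ^ (Nat.log 2 t + 1) := Nat.one_le_two_pow
      omega
    exact_mod_cast h9
  refine ⟨q, ν / ‖ν‖, ?_, ?_⟩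
  · rw [norm_div, Complex.norm_real, Real.norm_eq_abs, abs_of_pos hνpos, div_self hνpos.ne']
  · intro a ha
    set j : ℤ := round (a / ‖ν‖) with hj
    have hj1 : |a - j * ‖ν‖| ≤ ‖ν‖ / 2 := by
      have h1 := abs_sub_round (a / ‖ν‖)
      have h2 : a - j * ‖ν‖ = (a / ‖ν‖ - j) * ‖ν‖ := by
        field_simp
      rw [h2, abs_mul, abs_of_pos hνpos]
      nlinarith
    have hj2 : |(j : ℝ)| * ‖ν‖ ≤ |a| + ‖ν‖ / 2 := by
      have h1 : |(j : ℝ)| * ‖ν‖ = |(j : ℝ) * ‖ν‖| := by rw [abs_mul, abs_of_pos hνpos]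
      rw [h1]
      have h2 : (j : ℝ) * ‖ν‖ = a - (a - j * ‖ν‖) := by ring
      rw [h2]
      exact (abs_sub _ _).trans (by linarith)
    have hj3 : 4 * (|(j : ℝ)| * ‖ν‖) ≤ 2 ^ v / 8 := by
      have : (2 : ℝ) ^ t / 2 ^ 20 = 2 ^ v / 2 ^ 8 := by
        rw [← p2]; field_simp
      rw [this] at ha
      have e2 : (2 : ℝ) ^ 8 = 256 := by norm_num
      rw [e2] at ha
      nlinarith
    obtain ⟨d, hd, hdj⟩ := hν4 j hj3
    obtain ⟨z, hz, hzq⟩ := hq d hd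
    refine ⟨z, hz, ?_⟩
    have hsplit : toC z - (q + a * (ν / ‖ν‖)) =
        (toC z - (q + d)) + ((d - (j : ℂ) * ν) + ((j : ℂ) * ν - a * (ν / ‖ν‖))) := by ring
    have hlast : ‖(j : ℂ) * ν - a * (ν / ‖ν‖)‖ ≤ ‖ν‖ / 2 := by
      have e : (j : ℂ) * ν - a * (ν / ‖ν‖) = -(((a - j * ‖ν‖ : ℝ) : ℂ) * (ν / ‖ν‖)) := by
        have : (‖ν‖ : ℂ) ≠ 0 := by exact_mod_cast hνpos.ne'
        push_cast
        field_simp
        ring
      rw [e, norm_neg, norm_mul, Complex.norm_real, Real.norm_eq_abs, norm_div, Complex.norm_real,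
        Real.norm_eq_abs, abs_of_pos hνpos, div_self hνpos.ne', mul_one]
      exact hj1
    rw [hsplit]
    have htri := (norm_add_le (toC z - (q + d)) ((d - (j : ℂ) * ν) + ((j : ℂ) * ν - a * (ν / ‖ν‖))))
    have htri2 := norm_add_le (d - (j : ℂ) * ν) ((j : ℂ) * ν - a * (ν / ‖ν‖))
    have hnt' : (n : ℝ) ≤ t := by exact_mod_cast hnt
    have hfin : 2 * (n : ℝ) * (3 * 2 ^ s) ≤ 6 * t * 2 ^ s := by nlinarith
    have hgoal : (2 : ℝ) ^ (s + ℓ + 2) = 4 * 2 ^ r := by rw [pow_add, ← hr]; ring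
    rw [hgoal]
    have hmul : (6 * (t : ℝ) + 3) * 2 ^ s ≤ 3 * 2 ^ ℓ * 2 ^ s :=
      mul_le_mul_of_nonneg_right h6t h2s.le
    rw [p3] at hνr ⊢
    nlinarith

end Pool.Agent.Work.MP_0d53be_an.Full
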